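import Pool.Agent.MP_df844f_gt.RA.c.RF

/-! Height functions on the reflection group and connected level slabs. -/

set_option autoImplicit false
set_option linter.unusedSectionVars false

noncomputable section

namespace Pool.Agent.MP_df844f_gt.FB

open Pool.Agent.MP_df844f_gt.RA

variable [Dat]

/-- `ψ` is additive on `Γ`. -/
def Adz (Γ : Subgroup W) (ψ : W → ℤ) : Prop := ∀ a ∈ Γ, ∀ b ∈ Γ, ψ (a * b) = ψ a + ψ b

section
variable {Γ : Subgroup W} {ψ : W → ℤ}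

theorem Adz.one (h : Adz Γ ψ) : ψ 1 = 0 := by
  have := h 1 Γ.one_mem 1 Γ.one_mem
  rw [mul_one] at this
  omega

theorem Adz.inv (h : Adz Γ ψ) {a : W} (ha : a ∈ Γ) : ψ a⁻¹ = -ψ a := by
  have := h a ha a⁻¹ (Γ.inv_mem ha)
  rw [mul_inv_cancel, h.one] at this
  omega

theorem Adz.pow (h : Adz Γ ψ) {a : W} (ha : a ∈ Γ) (k : ℕ) : ψ (a ^ k) = k * ψ a := by
  induction k with
  | zero => simp [h.one]
  | succ k ih => rw [pow_succ, h _ (Γ.pow_mem ha k) a ha, ih]; push_cast; ring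

theorem Adz.ex (h : Adz Γ ψ) {τ : W} (hτ : τ ∈ Γ) (h1 : ψ τ = 1) (k : ℤ) : ∃ γ ∈ Γ, ψ γ = k := by
  obtain ⟨n, rfl | rfl⟩ := k.eq_nat_or_neg
  · exact ⟨τ ^ n, Γ.pow_mem hτ n, by rw [h.pow hτ, h1, mul_one]⟩
  · exact ⟨(τ ^ n)⁻¹, Γ.inv_mem (Γ.pow_mem hτ n), by
      rw [h.inv (Γ.pow_mem hτ n), h.pow hτ, h1, mul_one]⟩

theorem Adz.neg (h : Adz Γ ψ) : Adz Γ fun w => -ψ w := fun a ha b hb => by
  show -ψ (a * b) = -ψ a + -ψ b
  rw [h a ha b hb]; ring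

end

/-- A height function. -/
structure Ht (Γ : Subgroup W) (ψ : W → ℤ) (l : ℕ) (ρ : W → ℤ) : Prop where
  lip : ∀ s w, ρ (g s * w) ≤ ρ w + 1
  eqv : ∀ w, ∀ γ ∈ Γ, ρ (w * γ) = ρ w + l * ψ γ

theorem len_ind {p : W → Prop} (h1 : p 1)
    (h2 : ∀ s w, len (g s * w) = len w + 1 → p w → p (g s * w)) (w : W) : p w := by
  induction hn : len w generalizing w with
  | zero => rw [len_eq_zero.1 hn]; exact h1
  | succ n ih =>
    have k : w ≠ 1 := fun e => by rw [e, len_one] at hn; omega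
    obtain ⟨s, hs⟩ := cs.exists_leftDescent_of_ne_one k
    have hs' : len (g s * w) < len w := hs
    have e := len_g_mul s w
    have := h2 s (g s * w) (by rw [g_mul_g_mul]; omega) (ih _ (by omega))
    rwa [g_mul_g_mul] at this

variable {Γ : Subgroup W} {ψ : W → ℤ} {l : ℕ} {ρ : W → ℤ}

theorem exists_ht (ha : Adz Γ ψ) (h : ∀ γ ∈ Γ, (l : ℤ) * |ψ γ| ≤ len γ) : ∃ ρ, Ht Γ ψ l ρ := by
  have key : ∀ w : W, ∃ z : ℤ, (∃ γ ∈ Γ, z = len (w * γ⁻¹) + l * ψ γ) ∧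
      ∀ z', (∃ γ ∈ Γ, z' = len (w * γ⁻¹) + l * ψ γ) → z ≤ z' := fun w => by
    refine Int.exists_least_of_bdd ⟨-(len w : ℤ), ?_⟩ ⟨_, 1, Γ.one_mem, rfl⟩
    rintro _ ⟨γ, hγ, rfl⟩
    have e1 := h γ hγ
    have e2 := len_mul_le w⁻¹ (w * γ⁻¹)
    rw [inv_mul_cancel_left, len_inv, len_inv] at e2
    have e3 : (l : ℤ) * -ψ γ ≤ l * |ψ γ| := Int.mul_le_mul_of_nonneg_left (neg_le_abs _) (by omega)
    rw [mul_neg] at e3
    omega
  choose ρ r1 r2 using key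
  have k : ∀ w, ∀ γ ∈ Γ, ρ (w * γ) ≤ ρ w + l * ψ γ := fun w γ hγ => by
    obtain ⟨δ, hδ, e⟩ := r1 w
    have := r2 (w * γ) _ ⟨δ * γ, Γ.mul_mem hδ hγ, rfl⟩
    rw [ha δ hδ γ hγ, show w * γ * (δ * γ)⁻¹ = w * δ⁻¹ by group, mul_add] at this
    omega
  refine ⟨ρ, fun s w => ?_, fun w γ hγ => le_antisymm (k w γ hγ) ?_⟩
  · obtain ⟨δ, hδ, e⟩ := r1 w
    have := r2 (g s * w) _ ⟨δ, hδ, rfl⟩
    have e2 := len_g_mul s (w * δ⁻¹)
    rw [mul_assoc] at this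
    omega
  · have := k (w * γ) γ⁻¹ (Γ.inv_mem hγ)
    rw [mul_inv_cancel_right, ha.inv hγ, mul_neg] at this
    omega

theorem Ht.lip' (h : Ht Γ ψ l ρ) (s : S) (w : W) : ρ w ≤ ρ (g s * w) + 1 := by
  have := h.lip s (g s * w)
  rwa [g_mul_g_mul] at this

theorem Ht.neg (h : Ht Γ ψ l ρ) : Ht Γ (fun w => -ψ w) l fun w => -ρ w :=
  ⟨fun s w => by have := h.lip' s w; omega, fun w γ hγ => by rw [h.eqv w γ hγ]; ring⟩

theorem Ht.le_len (h : Ht Γ ψ l ρ) (u x : W) : ρ x ≤ ρ (u * x) + len u := by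
  induction u using len_ind with
  | h1 => simp
  | h2 s w e ih =>
    have := h.lip' s (w * x)
    rw [mul_assoc, e]
    push_cast
    omega

/-- Edge paths inside the set `A`. -/
def Pa (A : Set W) : W → W → Prop :=
  Relation.ReflTransGen fun a b => a ∈ A ∧ b ∈ A ∧ ∃ s, b = g s * a

theorem Pa.refl {A : Set W} (x : W) : Pa A x x := Relation.ReflTransGen.refl

theorem Pa.trans {A : Set W} {x y z : W} (h : Pa A x y) (k : Pa A y z) : Pa A x z :=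
  Relation.ReflTransGen.trans h k

theorem Pa.one {A : Set W} {x : W} (s : S) (h : x ∈ A) (k : g s * x ∈ A) : Pa A x (g s * x) :=
  Relation.ReflTransGen.single ⟨h, k, s, rfl⟩

theorem Pa.one' {A : Set W} {x : W} (s : S) (h : x ∈ A) (k : g s * x ∈ A) : Pa A (g s * x) x :=
  Relation.ReflTransGen.single ⟨k, h, s, (g_mul_g_mul s x).symm⟩

theorem Pa.symm {A : Set W} {x y : W} (h : Pa A x y) : Pa A y x := by
  induction h with
  | refl => exact Pa.refl _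
  | tail _ k ih =>
    obtain ⟨a, b, s, rfl⟩ := k
    exact (Pa.one' s a b).trans ih

theorem Pa.mono {A A' : Set W} {x y : W} (h : Pa A x y) (k : A ⊆ A') : Pa A' x y := by
  induction h with
  | refl => exact Pa.refl _
  | tail _ e ih =>
    obtain ⟨a, b, s, rfl⟩ := e
    exact ih.trans (Pa.one s (k a) (k b))

theorem Pa.mul {A : Set W} {x y : W} (h : Pa A x y) (n : W) (k : ∀ a ∈ A, a * n ∈ A) :
    Pa A (x * n) (y * n) := by
  induction h with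
  | refl => exact Pa.refl _
  | tail _ e ih =>
    obtain ⟨a, b, s, rfl⟩ := e
    refine ih.trans ?_
    rw [mul_assoc]
    exact Pa.one s (k _ a) (by rw [← mul_assoc]; exact k _ b)

theorem Ht.left (h : Ht Γ ψ l ρ) (m : ℤ) (u x : W) (k : m + len u ≤ ρ x) :
    Pa {w | m ≤ ρ w} x (u * x) := by
  induction u using len_ind with
  | h1 => rw [one_mul]; exact Pa.refl _
  | h2 s w e ih =>
    have e1 := h.le_len w x
    have e2 := h.le_len (g s * w) x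
    rw [e] at k e2
    push_cast at k e2
    refine (ih (by omega)).trans ?_
    rw [mul_assoc] at e2 ⊢
    exact Pa.one s (show m ≤ _ by omega) (show m ≤ _ by omega)

theorem Ht.half (h : Ht Γ ψ l ρ) (ha : Adz Γ ψ) [Γ.FiniteIndex] {τ : W} (hτ : τ ∈ Γ)
    (h1 : ψ τ = 1) (N : Subgroup W) (hN : ∀ w, w ∈ N ↔ w ∈ Γ ∧ ψ w = 0) (fg : N.FG) :
    ∃ c : ℕ, ∀ (m : ℤ) (x y : W), m + c ≤ ρ x → m + c ≤ ρ y → Pa {w | m ≤ ρ w} x y := by
  obtain ⟨T, hT⟩ := fg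
  obtain ⟨L1, hL1⟩ := (Set.finite_range fun b : W ⧸ Γ => len b.out).bddAbove
  obtain ⟨L2, hL2⟩ := (T.finite_toSet.image len).bddAbove
  have hρ : ∀ γ ∈ Γ, ρ γ = ρ 1 + l * ψ γ := fun γ hγ => by simpa using h.eqv 1 γ hγ
  obtain ⟨L, a1, a2, a3⟩ : ∃ L : ℕ, L1 ≤ L ∧ L2 ≤ L ∧ len τ ≤ L :=
    ⟨L1 + L2 + len τ, by omega, by omega, by omega⟩
  refine ⟨L + L, fun m => ?_⟩
  have s0 : ∀ n ∈ N, ∀ γ ∈ Γ, ρ (n * γ) = ρ γ := fun n hn γ hγ => by
    obtain ⟨n1, n2⟩ := (hN n).1 hn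
    rw [hρ _ (Γ.mul_mem n1 hγ), hρ _ hγ, ha n n1 γ hγ, n2, zero_add]
  have s1 : ∀ n ∈ N, ∀ γ ∈ Γ, m + L ≤ ρ γ → Pa {w | m ≤ ρ w} γ (n * γ) := by
    intro n hn
    rw [← hT] at hn
    induction hn using Subgroup.closure_induction with
    | mem x hx =>
      intro γ _ k
      have : len x ≤ L2 := hL2 ⟨x, hx, rfl⟩
      exact h.left m x γ (by omega)
    | one => intro γ _ _; rw [one_mul]; exact Pa.refl _
    | mul x y hx hy ix iy =>
      intro γ hγ k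
      rw [hT] at hy
      rw [mul_assoc]
      exact (iy γ hγ k).trans (ix _ (Γ.mul_mem ((hN y).1 hy).1 hγ) (by rwa [s0 y hy γ hγ]))
    | inv x hx ix =>
      intro γ hγ k
      rw [hT] at hx
      have := ix (x⁻¹ * γ) (Γ.mul_mem (Γ.inv_mem ((hN x).1 hx).1) hγ)
        (by rwa [s0 _ (N.inv_mem hx) γ hγ])
      rw [mul_inv_cancel_left] at this
      exact this.symm
  have s2 : ∀ k : ℕ, ∀ γ ∈ Γ, m + L ≤ ρ γ →
      Pa {w | m ≤ ρ w} γ (τ ^ k * γ) ∧ m + L ≤ ρ (τ ^ k * γ) := by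
    intro k γ hγ e
    induction k with
    | zero => rw [pow_zero, one_mul]; exact ⟨Pa.refl _, e⟩
    | succ k ih =>
      have hk := Γ.mul_mem (Γ.pow_mem hτ k) hγ
      rw [pow_succ', mul_assoc]
      refine ⟨ih.1.trans (h.left m τ _ (by omega)), ?_⟩
      have e2 := ih.2
      rw [hρ _ hk] at e2
      rw [hρ _ (Γ.mul_mem hτ hk), ha τ hτ _ hk, h1, mul_add]
      omega
  have s3 : ∀ γ ∈ Γ, ∀ δ ∈ Γ, m + L ≤ ρ γ → ψ γ ≤ ψ δ → Pa {w | m ≤ ρ w} γ δ := by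
    intro γ hγ δ hδ e k
    obtain ⟨p1, p2⟩ := s2 (ψ δ - ψ γ).toNat γ hγ e
    have hk := Γ.mul_mem (Γ.pow_mem hτ (ψ δ - ψ γ).toNat) hγ
    have := s1 (δ * (τ ^ (ψ δ - ψ γ).toNat * γ)⁻¹) ((hN _).2 ⟨Γ.mul_mem hδ (Γ.inv_mem hk), by
      rw [ha δ hδ _ (Γ.inv_mem hk), ha.inv hk, ha _ (Γ.pow_mem hτ _) γ hγ, ha.pow hτ, h1]
      omega⟩) _ hk p2
    rw [inv_mul_cancel_right] at this
    exact p1.trans this
  have s4 : ∀ x, m + (L + L : ℕ) ≤ ρ x → ∃ γ ∈ Γ, m + L ≤ ρ γ ∧ Pa {w | m ≤ ρ w} γ x := by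
    intro x e
    obtain ⟨⟨γ, hγ⟩, k⟩ := QuotientGroup.mk_out_eq_mul Γ x
    have e1 : len (x : W ⧸ Γ).out ≤ L1 := hL1 ⟨_, rfl⟩
    have e2 := h.le_len ((x : W ⧸ Γ).out)⁻¹ x
    have e3 : ((x : W ⧸ Γ).out)⁻¹ * x = γ⁻¹ := by rw [k]; simp
    rw [e3, len_inv] at e2
    push_cast at e
    refine ⟨γ⁻¹, Γ.inv_mem hγ, by omega, ?_⟩
    have := h.left m (x : W ⧸ Γ).out γ⁻¹ (by omega)
    rwa [show (x : W ⧸ Γ).out * γ⁻¹ = x by rw [k]; simp] at this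
  intro x y hx hy
  obtain ⟨γ, hγ, p1, p2⟩ := s4 x hx
  obtain ⟨δ, hδ, q1, q2⟩ := s4 y hy
  refine p2.symm.trans (Pa.trans ?_ q2)
  rcases le_total (ψ γ) (ψ δ) with k | k
  · exact s3 γ hγ δ hδ p1 k
  · exact (s3 δ hδ γ hγ q1 k).symm

/-- A connected level slab at height `i`, with the dual integer valued function. -/
structure Slab (Γ : Subgroup W) (ψ ρ : W → ℤ) (i : ℤ) (I : Set W) (η : W → ℤ) : Prop where
  ne : I.Nonempty
  lev : ∀ w ∈ I, ρ w = i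
  inv : ∀ w ∈ I, ∀ n ∈ Γ, ψ n = 0 → w * n ∈ I
  con : ∀ w ∈ I, ∀ w' ∈ I, Pa {x | |ρ x - i| ≤ 2} w w'
  eqv : ∀ w, ∀ γ ∈ Γ, η (w * γ) = η w + ψ γ
  jump : ∀ s w, η (g s * w) < η w → ∃ γ ∈ Γ, w * γ ∈ I

theorem Ht.slab (hH : H1S) (h : Ht Γ ψ l ρ) (hl : 1 ≤ l) (ha : Adz Γ ψ) [Γ.FiniteIndex] {τ : W}
    (hτ : τ ∈ Γ) (h1 : ψ τ = 1) (N : Subgroup W) (hN : ∀ w, w ∈ N ↔ w ∈ Γ ∧ ψ w = 0) (fg : N.FG)
    (i : ℤ) : ∃ I η, Slab Γ ψ ρ i I η := by
  classical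
  obtain ⟨c, hc⟩ := h.half ha hτ h1 N hN fg
  obtain ⟨c', hc'⟩ := h.neg.half ha.neg (Γ.inv_mem hτ) (by simp [ha.inv hτ, h1]) N
    (fun w => by simp [hN]) fg
  have h0 : ∀ w, ∀ n ∈ Γ, ψ n = 0 → ρ (w * n) = ρ w := fun w n hn e => by
    rw [h.eqv w n hn, e]; simp
  have up : ∀ (w : W) (m : ℤ), ∃ γ ∈ Γ, m ≤ ρ (w * γ) ∧ ρ (w * γ⁻¹) ≤ -m := fun w m => by
    obtain ⟨γ, hγ, e⟩ := ha.ex hτ h1 (|m| + |ρ w|)
    refine ⟨γ, hγ, ?_⟩
    rw [h.eqv w γ hγ, h.eqv w _ (Γ.inv_mem hγ), ha.inv hγ, e, mul_neg]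
    have e1 : 1 * (|m| + |ρ w|) ≤ (l : ℤ) * (|m| + |ρ w|) :=
      Int.mul_le_mul_of_nonneg_right (by omega) (by positivity)
    have := le_abs_self m
    have := le_abs_self (ρ w)
    have := neg_abs_le (ρ w)
    omega
  obtain ⟨D, hD⟩ : ∃ D : Set W, ∀ w, w ∈ D ↔
      i ≤ ρ w ∧ ∃ z, i + c ≤ ρ z ∧ Pa {w | i ≤ ρ w} w z := ⟨{w | _}, fun _ => Iff.rfl⟩
  obtain ⟨E, hE⟩ : ∃ E : Set W, ∀ w, w ∈ E ↔ w ∉ D ∧ ∃ z, ρ z ≤ i - 1 - c' ∧ Pa Dᶜ w z :=
    ⟨{w | _}, fun _ => Iff.rfl⟩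
  have d1 : ∀ w ∈ D, ∀ n ∈ Γ, ψ n = 0 → w * n ∈ D := fun w hw n hn e => by
    obtain ⟨a, z, b, p⟩ := (hD w).1 hw
    exact (hD _).2 ⟨by rwa [h0 w n hn e], z * n, by rwa [h0 z n hn e],
      p.mul n fun a k => show i ≤ _ by rwa [h0 a n hn e]⟩
  have d2 : ∀ w ∉ D, ∀ n ∈ Γ, ψ n = 0 → w * n ∉ D := fun w hw n hn e k => hw (by
    have := d1 _ k n⁻¹ (Γ.inv_mem hn) (by rw [ha.inv hn, e]; rfl)
    rwa [mul_inv_cancel_right] at this)
  have e1 : ∀ w ∈ E, ∀ n ∈ Γ, ψ n = 0 → w * n ∈ E := fun w hw n hn e => by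
    obtain ⟨a, z, b, p⟩ := (hE w).1 hw
    exact (hE _).2 ⟨d2 w a n hn e, z * n, by rwa [h0 z n hn e], p.mul n fun a k => d2 a k n hn e⟩
  have e2 : ∀ w ∉ E, ∀ n ∈ Γ, ψ n = 0 → w * n ∉ E := fun w hw n hn e k => hw (by
    have := e1 _ k n⁻¹ (Γ.inv_mem hn) (by rw [ha.inv hn, e]; rfl)
    rwa [mul_inv_cancel_right] at this)
  have d3 : ∀ w, i + c ≤ ρ w → w ∈ D := fun w k => (hD w).2 ⟨by omega, w, k, Pa.refl _⟩
  have e3 : ∀ w, ρ w ≤ i - 1 - c' → w ∈ E := fun w k =>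
    (hE w).2 ⟨fun q => by have := ((hD w).1 q).1; omega, w, k, Pa.refl _⟩
  have d4 : ∀ s w, g s * w ∈ D → i ≤ ρ w → w ∈ D := fun s w k q => by
    obtain ⟨a, z, b, p⟩ := (hD _).1 k
    exact (hD w).2 ⟨q, z, b, (Pa.one s q a).trans p⟩
  have e4 : ∀ s w, g s * w ∈ E → w ∉ D → w ∈ E := fun s w k q => by
    obtain ⟨a, z, b, p⟩ := (hE _).1 k
    exact (hE w).2 ⟨q, z, b, (Pa.one s q a).trans p⟩
  have cut : ∀ s w, w ∉ E → g s * w ∈ E → w ∈ D ∧ ρ w = i ∧ ρ (g s * w) = i - 1 := by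
    intro s w a b
    have k1 : w ∈ D := by_contra fun q => a (e4 s w b q)
    have k2 := ((hD w).1 k1).1
    have k3 : ¬ i ≤ ρ (g s * w) := fun q =>
      ((hE _).1 b).1 (d4 s (g s * w) (by rwa [g_mul_g_mul]) q)
    have := h.lip' s w
    exact ⟨k1, by omega, by omega⟩
  -- functions that are constant along edges inside `D` and inside `E`
  have cD : ∀ φ : W → F2, (∀ s x, x ∈ D → g s * x ∈ D → φ (g s * x) = φ x) →
      ∀ x ∈ D, ∀ y ∈ D, φ x = φ y := by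
    intro φ hφ
    have k : ∀ x y, Pa {w | i ≤ ρ w} x y → x ∈ D → y ∈ D ∧ φ y = φ x := by
      intro x y p hx
      induction p with
      | refl => exact ⟨hx, rfl⟩
      | tail _ q ih =>
        obtain ⟨_, b, s, rfl⟩ := q
        have := d4 s _ (by rw [g_mul_g_mul]; exact ih.1) b
        exact ⟨this, (hφ s _ ih.1 this).trans ih.2⟩
    intro x hx y hy
    obtain ⟨-, z, b, p⟩ := (hD x).1 hx
    obtain ⟨-, z', b', p'⟩ := (hD y).1 hy
    exact (k x y (p.trans ((hc i z z' b b').trans p'.symm)) hx).2.symm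
  have cE : ∀ φ : W → F2, (∀ s x, x ∈ E → g s * x ∈ E → φ (g s * x) = φ x) →
      ∀ x ∈ E, ∀ y ∈ E, φ x = φ y := by
    intro φ hφ
    have k : ∀ x y, Pa Dᶜ x y → x ∈ E → y ∈ E ∧ φ y = φ x := by
      intro x y p hx
      induction p with
      | refl => exact ⟨hx, rfl⟩
      | tail _ q ih =>
        obtain ⟨_, b, s, rfl⟩ := q
        have := e4 s _ (by rw [g_mul_g_mul]; exact ih.1) b
        exact ⟨this, (hφ s _ ih.1 this).trans ih.2⟩
    intro x hx y hy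
    obtain ⟨-, z, b, p⟩ := (hE x).1 hx
    obtain ⟨-, z', b', p'⟩ := (hE y).1 hy
    have q := (hc' (1 - i) z z' (by omega) (by omega)).mono (A' := Dᶜ) fun w k q => by
      have := ((hD w).1 q).1
      have k' : 1 - i ≤ -ρ w := k
      omega
    exact (k x y (p.trans (q.trans p'.symm)) hx).2.symm
  have top : ∀ w : W, ∃ z : ℤ, (∃ γ ∈ Γ, ψ γ = z ∧ w * γ⁻¹ ∉ E) ∧
      ∀ z', (∃ γ ∈ Γ, ψ γ = z' ∧ w * γ⁻¹ ∉ E) → z' ≤ z := fun w => by
    refine Int.exists_greatest_of_bdd ⟨|ρ w - i + c'|, ?_⟩ ?_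
    · rintro _ ⟨γ, hγ, rfl, k⟩
      have k1 : ¬ ρ (w * γ⁻¹) ≤ i - 1 - c' := fun q => k (e3 _ q)
      rw [h.eqv w _ (Γ.inv_mem hγ), ha.inv hγ, mul_neg] at k1
      have := le_abs_self (ρ w - i + c')
      have := abs_nonneg (ρ w - i + c')
      by_cases q : 0 ≤ ψ γ
      · have : 1 * ψ γ ≤ (l : ℤ) * ψ γ := Int.mul_le_mul_of_nonneg_right (by omega) q
        omega
      · omega
    · obtain ⟨γ, hγ, k, -⟩ := up w (i + c)
      exact ⟨_, γ⁻¹, Γ.inv_mem hγ, rfl, by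
        rw [inv_inv]; exact fun q => ((hE _).1 q).1 (d3 _ k)⟩
  choose η t1 t2 using top
  have t3 : ∀ w, ∀ γ ∈ Γ, η w + ψ γ ≤ η (w * γ) := fun w γ hγ => by
    obtain ⟨δ, hδ, a, b⟩ := t1 w
    refine t2 _ _ ⟨δ * γ, Γ.mul_mem hδ hγ, by rw [ha δ hδ γ hγ, a], ?_⟩
    rwa [show w * γ * (δ * γ)⁻¹ = w * δ⁻¹ by group]
  refine ⟨{w | w ∉ E ∧ ∃ s, g s * w ∈ E}, η, ?_, ?_, ?_, ?_, ?_, ?_⟩
  · by_contra q
    obtain ⟨γ, hγ, a, -⟩ := up 1 (i + c)
    obtain ⟨δ, hδ, -, b⟩ := up 1 (-(i - 1 - c'))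
    have k : ∀ u : W, u * (1 * γ) ∉ E := fun u => by
      induction u using induction_left with
      | h1 => rw [one_mul]; exact fun q => ((hE _).1 q).1 (d3 _ a)
      | h2 w s ih => exact fun e => q ⟨_, ih, s, by rwa [mul_assoc] at e⟩
    refine k (1 * δ⁻¹ * (1 * γ)⁻¹) ?_
    rw [inv_mul_cancel_right]
    exact e3 _ (by omega)
  · rintro w ⟨a, s, b⟩
    exact (cut s w a b).2.1
  · rintro w ⟨a, s, b⟩ n hn e
    exact ⟨e2 w a n hn e, s, by rw [← mul_assoc]; exact e1 _ b n hn e⟩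
  · rintro w0 ⟨a0, s0, b0⟩ w1 ⟨a1, s1, b1⟩
    let χ : W → F2 := fun x => if x ∈ E then 1 else 0
    let C : W → Prop := fun x => Pa {x | |ρ x - i| ≤ 2} w0 x
    have hχ : ∀ s x, χ x + χ (g s * x) ≠ 0 →
        (ρ x = i ∧ ρ (g s * x) = i - 1) ∨ (ρ x = i - 1 ∧ ρ (g s * x) = i) := by
      intro s x k
      by_cases p : x ∈ E <;> by_cases q : g s * x ∈ E
      · exact absurd (by simp only [χ, if_pos p, if_pos q]; rfl) k
      · have := (cut s (g s * x) q (by rwa [g_mul_g_mul])).2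
        rw [g_mul_g_mul] at this
        exact Or.inr ⟨this.2, this.1⟩
      · exact Or.inl (cut s x p q).2
      · exact absurd (by simp only [χ, if_neg p, if_neg q]; rfl) k
    have hC : ∀ s x, |ρ x - i| ≤ 2 → |ρ (g s * x) - i| ≤ 2 → (C (g s * x) ↔ C x) :=
      fun s x p q => ⟨fun k => Pa.trans k (Pa.one' s p q), fun k => Pa.trans k (Pa.one s p q)⟩
    obtain ⟨φ, hφ⟩ := hH Set.univ (fun _ _ _ _ _ _ => trivial)
      (fun s x => if C x then χ x + χ (g s * x) else 0)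
      (fun s x _ _ => by
        rw [g_mul_g_mul, add_comm]
        by_cases k : χ x + χ (g s * x) = 0
        · simp [k]
        · have := hχ s x k
          rw [hC s x (by rw [abs_le]; omega) (by rw [abs_le]; omega)])
      (fun s t x hst _ _ _ _ => by
        have sw : g t * (g s * x) = g s * (g t * x) := by
          rw [← mul_assoc, ← g_comm hst, mul_assoc]
        have l1 := h.lip s x
        have l2 := h.lip' s x
        have l3 := h.lip t x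
        have l4 := h.lip' t x
        have l5 := h.lip s (g t * x)
        have l6 := h.lip' s (g t * x)
        have l7 := h.lip t (g s * x)
        have l8 := h.lip' t (g s * x)
        by_cases k : |ρ x - i| ≤ 2 ∧ |ρ (g s * x) - i| ≤ 2 ∧ |ρ (g t * x) - i| ≤ 2
        · rw [hC s x k.1 k.2.1, hC t x k.1 k.2.2, sw]
          by_cases q : C x
          · simp only [if_pos q]
            generalize χ x = a1
            generalize χ (g s * x) = a2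
            generalize χ (g t * x) = a3
            generalize χ (g s * (g t * x)) = a4
            revert a1 a2 a3 a4
            decide
          · simp only [if_neg q, add_zero]
        · simp only [abs_le] at k
          have z1 : χ x + χ (g s * x) = 0 := by_contra fun q => by have := hχ _ _ q; omega
          have z2 : χ x + χ (g t * x) = 0 := by_contra fun q => by have := hχ _ _ q; omega
          have z3 : χ (g t * x) + χ (g s * (g t * x)) = 0 :=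
            by_contra fun q => by have := hχ _ _ q; rw [sw] at l7 l8; omega
          have z4 : χ (g s * x) + χ (g t * (g s * x)) = 0 :=
            by_contra fun q => by have := hχ _ _ q; rw [← sw] at l5 l6; omega
          simp only [z1, z2, z3, z4, ite_self, add_zero])
    have two : ∀ a b : F2, 0 = a + b → b = a := by decide
    have p1 := cD φ fun s x a b => two _ _ (by
      rw [← hφ s x trivial trivial]
      have a' : x ∉ E := fun q => ((hE _).1 q).1 a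
      have b' : g s * x ∉ E := fun q => ((hE _).1 q).1 b
      simp [χ, a', b'])
    have p2 := cE φ fun s x a b => two _ _ (by
      rw [← hφ s x trivial trivial]
      have : (1 : F2) + 1 = 0 := rfl
      simp [χ, a, b, this])
    have q0 := hφ s0 w0 trivial trivial
    have q1 := hφ s1 w1 trivial trivial
    rw [p1 w1 (cut s1 w1 a1 b1).1 w0 (cut s0 w0 a0 b0).1, p2 _ b1 _ b0, ← q0,
      if_pos (show C w0 from Pa.refl _)] at q1
    by_contra q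
    rw [if_neg q] at q1
    simp [χ, a0, b0] at q1
  · intro w γ hγ
    have := t3 (w * γ) γ⁻¹ (Γ.inv_mem hγ)
    rw [mul_inv_cancel_right, ha.inv hγ] at this
    have := t3 w γ hγ
    omega
  · intro s w k
    obtain ⟨γ, hγ, a, b⟩ := t1 w
    refine ⟨γ⁻¹, Γ.inv_mem hγ, b, s, ?_⟩
    by_contra q
    have := t2 (g s * w) _ ⟨γ, hγ, a, by rwa [mul_assoc]⟩
    omega

end Pool.Agent.MP_df844f_gt.FB

end
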