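import Pool.Agent.MP_df844f_gt.fb.Def

/-! Surface groups; finite index subgroups of a one relator group with relator in the commutator
subgroup have at least as many maps to `ZMod 2` as the group itself. -/

set_option autoImplicit false

namespace Pool.Agent.MP_df844f_gt.FB

/-- `θ` is additive on the subgroup `P`. -/
def Ad {G : Type} [Group G] (P : Subgroup G) (θ : G → ZMod 2) : Prop :=
  ∀ a ∈ P, ∀ b ∈ P, θ (a * b) = θ a + θ b

theorem surfRel_map (g : ℕ) {A : Type} [CommGroup A] (f : FreeGroup (Fin g × Bool) →* A) :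
    f (surfRel g) = 1 := by
  unfold surfRel
  rw [map_list_prod]
  refine List.prod_eq_one fun x hx => ?_
  obtain ⟨y, hy, rfl⟩ := List.mem_map.1 hx
  obtain ⟨i, rfl⟩ := (List.mem_ofFn' _ _).1 hy
  simp only [map_mul, map_inv]
  rw [mul_inv_cancel_comm, mul_inv_cancel]

section

variable {α X : Type} [MulAction (FreeGroup α) X]

/-- The skew permutation of a generator. -/
def sk (c : α → X → ZMod 2) (a : α) : Equiv.Perm (X × ZMod 2) where
  toFun p := (FreeGroup.of a • p.1, p.2 + c a p.1)
  invFun p := ((FreeGroup.of a)⁻¹ • p.1, p.2 - c a ((FreeGroup.of a)⁻¹ • p.1))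
  left_inv p := by simp
  right_inv p := by simp

/-- The skew action of the free group. -/
def act (c : α → X → ZMod 2) : FreeGroup α →* Equiv.Perm (X × ZMod 2) := FreeGroup.lift (sk c)

/-- The value of the cochain `c` along the word `u` starting at `x`. -/
def val (c : α → X → ZMod 2) (u : FreeGroup α) (x : X) : ZMod 2 := (act c u (x, 0)).2

theorem act_of (c : α → X → ZMod 2) (a : α) (x : X) (e : ZMod 2) :
    act c (FreeGroup.of a) (x, e) = (FreeGroup.of a • x, e + c a x) := by
  simp [act, sk]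

theorem act_apply (c : α → X → ZMod 2) (u : FreeGroup α) :
    ∀ (x : X) (e : ZMod 2), act c u (x, e) = (u • x, e + val c u x) := by
  have key : ∀ u : FreeGroup α, ∃ v : X → ZMod 2, ∀ x e, act c u (x, e) = (u • x, e + v x) := by
    intro u
    induction u using FreeGroup.induction_on with
    | C1 => exact ⟨0, fun x e => by simp⟩
    | of a => exact ⟨c a, act_of c a⟩
    | inv_of a h =>
      refine ⟨fun x => -c a ((FreeGroup.of a)⁻¹ • x), fun x e => ?_⟩
      rw [map_inv, Equiv.Perm.inv_eq_iff_eq, act_of, smul_inv_smul, neg_add_cancel_right]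
    | mul u v hu hv =>
      obtain ⟨p, hp⟩ := hu
      obtain ⟨q, hq⟩ := hv
      refine ⟨fun x => q x + p (v • x), fun x e => ?_⟩
      rw [map_mul, Equiv.Perm.mul_apply, hq, hp, mul_smul, add_assoc]
  intro x e
  obtain ⟨v, hv⟩ := key u
  rw [val, hv, hv]
  simp

theorem val_mul (c : α → X → ZMod 2) (u v : FreeGroup α) (x : X) :
    val c (u * v) x = val c v x + val c u (v • x) := by
  have h := act_apply c (u * v) x 0
  rw [map_mul, Equiv.Perm.mul_apply, act_apply, act_apply] at h
  simpa using (congrArg Prod.snd h).symm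

theorem val_one (c : α → X → ZMod 2) (x : X) : val c 1 x = 0 := by simp [val]

theorem val_of (c : α → X → ZMod 2) (a : α) (x : X) : val c (FreeGroup.of a) x = c a x := by
  simp [val, act_of]

theorem val_inv (c : α → X → ZMod 2) (u : FreeGroup α) (x : X) :
    val c u⁻¹ x = -val c u (u⁻¹ • x) := by
  have h := val_mul c u u⁻¹ x
  rw [mul_inv_cancel, val_one] at h
  exact eq_neg_of_add_eq_zero_left h.symm

theorem val_add (c c' : α → X → ZMod 2) (u : FreeGroup α) :
    ∀ x : X, val (c + c') u x = val c u x + val c' u x := by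
  induction u using FreeGroup.induction_on with
  | C1 => intro x; simp [val_one]
  | of a => intro x; simp [val_of]
  | inv_of a h => intro x; rw [val_inv, val_inv, val_inv, h]; ring
  | mul u v hu hv => intro x; rw [val_mul, val_mul, val_mul, hu, hv]; ring

theorem sum_val [Fintype X] (ω : FreeGroup α)
    (hω : ∀ f : FreeGroup α →* Multiplicative (ZMod 2), f ω = 1) (c : α → X → ZMod 2) :
    ∑ x, val c ω x = 0 := by
  let f : FreeGroup α →* Multiplicative (ZMod 2) :=
    MonoidHom.mk' (fun u => Multiplicative.ofAdd (∑ x, val c u x)) fun u v => by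
      rw [← ofAdd_add]
      congr 1
      simp only [val_mul, Finset.sum_add_distrib]
      rw [add_comm]
      congr 1
      exact Equiv.sum_comp (MulAction.toPerm v) (val c u)
  exact hω f

end

theorem card_pt {X : Type} [Finite X] (x0 : X) (T : Type) (f : T → X → ZMod 2)
    (hf : ∀ a b, (∀ x, x ≠ x0 → f a x = f b x) → a = b) :
    2 * Nat.card T ≤ 2 ^ Nat.card X := by
  classical
  have := Fintype.ofFinite X
  have h := Nat.card_le_card_of_injective (fun (a : T) (x : {x // x ≠ x0}) => f a x)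
    fun a b h => hf a b fun x hx => congrFun h ⟨x, hx⟩
  rw [Nat.card_fun, Nat.card_zmod] at h
  have k : Nat.card X = Nat.card {x // x ≠ x0} + 1 := by
    have : 0 < Fintype.card X := Fintype.card_pos_iff.2 ⟨x0⟩
    simp only [Nat.card_eq_fintype_card, ne_eq, Fintype.card_subtype_compl, Fintype.card_unique]
    omega
  rw [k, pow_succ]
  omega

theorem surf {α : Type} [Finite α] (hn : 2 ≤ Nat.card α) (ω : FreeGroup α)
    (hω : ∀ f : FreeGroup α →* Multiplicative (ZMod 2), f ω = 1) {G : Type} [Group G]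
    (π : FreeGroup α →* G) (hk : π.ker = Subgroup.normalClosure {ω}) (P : Subgroup G)
    [(P.comap π).FiniteIndex] {Z : Type} [Finite Z] (Φ : (G → ZMod 2) → Z)
    (hΦ : ∀ θ θ', Ad P θ → Ad P θ' → Φ θ = Φ θ' → ∀ p ∈ P, θ p = θ' p)
    (hr : ∀ p ∈ P, p ∈ π.range) : 2 ^ Nat.card α ≤ (Φ '' {θ | Ad P θ}).ncard := by
  classical
  let X := FreeGroup α ⧸ P.comap π
  have := Fintype.ofFinite X
  let x0 : X := ((1 : FreeGroup α) : FreeGroup α ⧸ P.comap π)
  have hx0 : ∀ u : FreeGroup α, u • x0 = (u : FreeGroup α ⧸ P.comap π) := fun u => by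
    show u • ((1 : FreeGroup α) : FreeGroup α ⧸ P.comap π) = _
    rw [MulAction.Quotient.smul_coe, smul_eq_mul, mul_one]
  have hst : ∀ u : FreeGroup α, u • x0 = x0 ↔ π u ∈ P := fun u => by
    rw [hx0, eq_comm, QuotientGroup.eq]
    simp
  have hω1 : π ω = 1 := by
    rw [← MonoidHom.mem_ker, hk]
    exact Subgroup.subset_normalClosure rfl
  have hωx : ∀ x : X, ω • x = x := fun x => by
    obtain ⟨u, rfl⟩ := QuotientGroup.mk_surjective x
    rw [MulAction.Quotient.smul_coe, smul_eq_mul, QuotientGroup.eq]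
    simp [hω1]
  let Λ : (α → X → ZMod 2) →+ (X → ZMod 2) :=
    AddMonoidHom.mk' (fun c x => val c ω x) fun c c' => funext fun x => val_add c c' ω x
  -- the range is small
  have h1 : 2 * Nat.card Λ.range ≤ 2 ^ Nat.card X := by
    refine card_pt x0 _ (fun a => a.1) ?_
    rintro ⟨_, c, rfl⟩ ⟨_, c', rfl⟩ h
    refine Subtype.ext (funext fun x => ?_)
    by_cases hx : x = x0
    · subst hx
      have e1 := sum_val ω hω c
      have e2 := sum_val ω hω c'
      rw [← Finset.add_sum_erase _ _ (Finset.mem_univ x0)] at e1 e2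
      have e3 : ∑ x ∈ Finset.univ.erase x0, val c ω x = ∑ x ∈ Finset.univ.erase x0, val c' ω x :=
        Finset.sum_congr rfl fun x hx => h x (Finset.ne_of_mem_erase hx)
      rw [e3, ← e2] at e1
      exact add_right_cancel e1
    · exact h x hx
  have h2 : Nat.card (α → X → ZMod 2) = Nat.card Λ.range * Nat.card Λ.ker := by
    rw [AddSubgroup.card_eq_card_quotient_mul_card_addSubgroup Λ.ker,
      Nat.card_congr (QuotientAddGroup.quotientKerEquivRange Λ).toEquiv]
  -- homomorphisms attached to the kernel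
  have hv : ∀ c : Λ.ker, ∀ u u', π u = π u' → val c.1 u x0 = val c.1 u' x0 := by
    intro c u u' h
    have k1 : act c.1 ω = 1 := by
      ext ⟨x, e⟩ : 1
      have : val c.1 ω x = 0 := congrFun c.2 x
      rw [act_apply, hωx, this]
      simp
    have k2 : u⁻¹ * u' ∈ (act c.1).ker := by
      refine Subgroup.normalClosure_le_normal (N := (act c.1).ker)
        (Set.singleton_subset_iff.2 k1) ?_
      rw [← hk, MonoidHom.mem_ker, map_mul, map_inv, h, inv_mul_cancel]
    rw [MonoidHom.mem_ker, map_mul, map_inv, inv_mul_eq_one] at k2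
    unfold val
    rw [k2]
  let θ : Λ.ker → G → ZMod 2 := fun c p => val c.1 (Function.invFun π p) x0
  have hθ : ∀ c u, θ c (π u) = val c.1 u x0 := fun c u =>
    hv c _ _ (Function.invFun_eq ⟨u, rfl⟩)
  have hA : ∀ c, Ad P (θ c) := by
    intro c a ha b hb
    obtain ⟨u, rfl⟩ := hr a ha
    obtain ⟨v, rfl⟩ := hr b hb
    rw [← map_mul, hθ, hθ, hθ, val_mul, (hst v).2 hb, add_comm]
  have ht : ∀ x : X, ∃ u : FreeGroup α, u • x0 = x ∧ (x = x0 → u = 1) := fun x => by
    by_cases hx : x = x0
    · exact ⟨1, by rw [one_smul, hx], fun _ => rfl⟩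
    · obtain ⟨u, rfl⟩ := QuotientGroup.mk_surjective x
      exact ⟨u, hx0 u, fun h => absurd h hx⟩
  choose t t1 t2 using ht
  let S := Φ '' {θ | Ad P θ}
  let Ψ : Λ.ker → S := fun c => ⟨Φ (θ c), θ c, hA c, rfl⟩
  have h3 : 2 * Nat.card Λ.ker ≤ Nat.card S * 2 ^ Nat.card X := by
    have e1 : Nat.card Λ.ker = ∑ᶠ z : S, Nat.card {c // Ψ c = z} := by
      have := Fintype.ofFinite S
      rw [finsum_eq_sum_of_fintype, ← Nat.card_sigma]
      exact Nat.card_congr (Equiv.sigmaFiberEquiv Ψ).symm
    have := Fintype.ofFinite S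
    rw [e1, finsum_eq_sum_of_fintype, Finset.mul_sum, Nat.card_eq_fintype_card (α := S),
      ← Finset.card_univ, ← smul_eq_mul]
    refine Finset.sum_le_card_nsmul _ _ _ fun z _ => ?_
    refine card_pt x0 _ (fun a x => val a.1.1 (t x) x0) ?_
    rintro ⟨c, hc⟩ ⟨c', hc'⟩ h
    have k0 : ∀ x, val c.1 (t x) x0 = val c'.1 (t x) x0 := fun x => by
      by_cases hx : x = x0
      · rw [t2 x hx, val_one, val_one]
      · exact h x hx
    have k1 := hΦ _ _ (hA c) (hA c') (congrArg Subtype.val (hc.trans hc'.symm))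
    refine Subtype.ext (Subtype.ext (funext fun a => funext fun x => ?_))
    have k2 : ((t (FreeGroup.of a • x))⁻¹ * (FreeGroup.of a * t x)) • x0 = x0 := by
      rw [mul_smul, mul_smul, t1, inv_smul_eq_iff, t1]
    have k3 := k1 _ ((hst _).1 k2)
    rw [hθ, hθ] at k3
    have k4 : ∀ d : α → X → ZMod 2, val d (t x) x0 + d a x =
        val d ((t (FreeGroup.of a • x))⁻¹ * (FreeGroup.of a * t x)) x0 +
          val d (t (FreeGroup.of a • x)) x0 := fun d => by
      have e1 := val_mul d (FreeGroup.of a) (t x) x0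
      have e2 := val_mul d (t (FreeGroup.of a • x))
        ((t (FreeGroup.of a • x))⁻¹ * (FreeGroup.of a * t x)) x0
      rw [mul_inv_cancel_left, k2] at e2
      rw [t1, val_of] at e1
      rw [← e1, e2]
    have k5 := k4 c.1
    rw [k3, k0, k0, ← k4 c'.1] at k5
    exact add_left_cancel k5
  rw [Nat.card_fun, Nat.card_fun, Nat.card_zmod, ← pow_mul] at h2
  have hd : 1 ≤ Nat.card X := Nat.card_pos_iff.2 ⟨⟨x0⟩, inferInstance⟩
  rw [← Nat.card_coe_set_eq]
  change _ ≤ Nat.card S
  generalize Nat.card S = s at *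
  generalize Nat.card X = d at *
  generalize Nat.card α = n at *
  have h4 : 4 * 2 ^ (d * n) ≤ s * 2 ^ (d + d) := by
    rw [h2, pow_add]
    calc 4 * (Nat.card Λ.range * Nat.card Λ.ker)
        = (2 * Nat.card Λ.range) * (2 * Nat.card Λ.ker) := by ring
      _ ≤ 2 ^ d * (s * 2 ^ d) := Nat.mul_le_mul h1 h3
      _ = _ := by ring
  have h5 : n + (d + d) ≤ 2 + d * n := by
    obtain ⟨d, rfl⟩ := Nat.exists_eq_add_of_le hd
    obtain ⟨n, rfl⟩ := Nat.exists_eq_add_of_le hn
    nlinarith [Nat.zero_le (d * n)]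
  have h6 : 2 ^ n * 2 ^ (d + d) ≤ s * 2 ^ (d + d) := by
    refine le_trans ?_ h4
    rw [← pow_add, show 4 * 2 ^ (d * n) = 2 ^ (2 + d * n) by rw [pow_add]; rfl]
    exact Nat.pow_le_pow_right (by norm_num) h5
  exact Nat.le_of_mul_le_mul_right h6 (by positivity)

end Pool.Agent.MP_df844f_gt.FB
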