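import Pool.Agent.MP_df844f_gt.RA.c.All
import Pool.Agent.MP_df844f_gt.fb.Slab
import Pool.Agent.MP_df844f_gt.fb.Surf

/-! The sequence of states and the first cohomology of a state that fills a slab. -/

set_option autoImplicit false
set_option linter.unusedSectionVars false

noncomputable section

namespace Pool.Agent.MP_df844f_gt.RA.CW

variable [Dat]

open WAll PS

theorem areaFB : AreaS :=
  areaS tineqA XAll.chiPA euler (surj factA) freeEx (zlow XAll.coefA) arcS addS structA

theorem noEndFB : NoEndS :=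
  noEnd tineqA (chiLe (absChi XAll.lemA) XAll.instA) XAll.chiPA euler (surj factA) freeEx
    (endA XAll.coefA coreA) (endB XAll.coefA (coreB h1A h2A)) (endM factA XAll.psizeA) addS
    structA

theorem seqFB : ∃ A ρ : ℕ, ∀ (B : Type) [MulAction W B] [Finite B] (o : B),
    Trans o → Thick o ρ → ∀ T : Finset W,
    Subgroup.closure (T : Set W) = MulAction.stabilizer W o →
    ∀ (G : PS B → Prop) (H : Set B → Prop), H ∅ →
    (∀ Y : PS B, Y.area ≤ A * (T.card + 1) → ¬ G Y → H (Set.range Y.f)) →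
    (∀ Y : PS B, Y.area ≤ A * (T.card + 1) → Nat.card B < sp Y + A → G Y) →
    ∃ (Y : PS B) (x0 : Y.Om) (μ : ℕ) (U : Set B), Y.Inv o x0 T.card μ ∧
      Y.area ≤ A * (T.card + 1) ∧ G Y ∧ H U ∧ (Set.range Y.f \ U).ncard ≤ A := by
  obtain ⟨A, C1, ρ1, ha⟩ := areaFB
  obtain ⟨C2, ρ2, hn⟩ := noEndFB
  obtain ⟨Cp, ρ3, hp⟩ := pushA
  refine ⟨A + Cp + nS + (C1 + C2) + 1, ρ1 + ρ2 + ρ3, ?_⟩
  intro B _ _ o ht hth T hT G H h0 hG hE
  obtain ⟨Y, x0, μ, a1, a2, a3, a4⟩ := init h1A B o ht T hT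
  generalize T.card = r at *
  generalize hC : A + Cp + nS + (C1 + C2) + 1 = C at *
  have hA : A * (r + 1) + Cp + nS ≤ C * (r + 1) := by
    rw [← hC, add_assoc A, add_assoc A, add_assoc A, add_mul A, add_assoc]
    exact Nat.add_le_add_left ((by omega : _ ≤ Cp + nS + (C1 + C2) + 1).trans
      (Nat.le_mul_of_pos_right _ (by omega))) _
  have key : ∀ (μ a : ℕ) (Y : PS B) (x0 : Y.Om) (U : Set B), Y.State → Y.Inv o x0 r μ →
      Y.area = a → a ≤ A * (r + 1) + Cp + nS → H U → (Set.range Y.f \ U).ncard ≤ C →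
      ∃ (Y : PS B) (x0 : Y.Om) (μ : ℕ) (U : Set B), Y.Inv o x0 r μ ∧
        Y.area ≤ C * (r + 1) ∧ G Y ∧ H U ∧ (Set.range Y.f \ U).ncard ≤ C := by
    intro μ
    induction μ using Nat.strong_induction_on with
    | _ μ ihμ =>
      intro a
      induction a using Nat.strong_induction_on with
      | _ a iha =>
        intro Y x0 U hs hI hae hal hU hd
        by_cases hg : G Y
        · exact ⟨Y, x0, μ, U, hI, by omega, hg, hU, hd⟩
        have hb := hG Y (by omega) hg
        have hv : sp Y + (C1 + C2) ≤ Nat.card B := by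
          by_contra q
          exact hg (hE Y (by omega) (by omega))
        by_cases tg : Tight Y o x0 r (C1 + C2)
        · have h1 := ha B o ht (hth.mono (by omega)) Y x0 r μ hs hI (by omega)
            (tg.mono (by omega))
          obtain ⟨Λ, hΛ, hm⟩ := hI
          cases Λ with
          | nil =>
            exact (hn B o ht (hth.mono (by omega)) Y x0 r hs hΛ (by omega)
              (tg.mono (by omega))).elim
          | cons l Λ =>
            obtain ⟨Y', x0', Λ', a1, a2, a3, a4, a5⟩ := hp B o (hth.mono (by omega)) Y x0 r l Λ hΛ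
            exact ihμ (meas Λ') (by omega) _ Y' x0' _ a1 ⟨Λ', a2, le_rfl⟩ rfl (by omega) hb
              (le_trans a4 (by omega))
        · unfold Tight at tg
          push Not at tg
          obtain ⟨Y', x0', a1, a2, a3, a4⟩ := tg
          exact iha Y'.area (by omega) Y' x0' _ a1 (a2 μ hI) rfl (by omega) hb
            (le_trans a3 (by omega))
  refine key μ _ Y x0 ∅ a1 a2 rfl (by omega) h0 ?_
  rw [Set.sdiff_empty, ← Set.image_univ]
  refine (Set.ncard_image_le (Set.toFinite _)).trans ?_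
  rw [Set.ncard_univ]
  unfold PS.vol at a3
  omega

end Pool.Agent.MP_df844f_gt.RA.CW

namespace Pool.Agent.MP_df844f_gt.FB

open Pool.Agent.MP_df844f_gt.RA PS

variable [Dat] {B : Type} [MulAction W B] {Y : PS B} {o : B}

/-- Thick paths upstairs. -/
def Rc (Y : PS B) : Y.Om × W → Y.Om × W → Prop :=
  Relation.ReflTransGen fun a b => ∃ s, Y.e s a.1 b.1 ∧ b.2 = g s * a.2

theorem Rc.step {a : Y.Om × W} {x y : Y.Om} {w : W} {s : S} (h : Rc Y a (x, w)) (e : Y.e s x y) :
    Rc Y a (y, g s * w) := Relation.ReflTransGen.tail h ⟨s, e, rfl⟩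

theorem Rc.trans {a b c : Y.Om × W} (h : Rc Y a b) (k : Rc Y b c) : Rc Y a c :=
  Relation.ReflTransGen.trans h k

theorem Rc.symm {a b : Y.Om × W} (h : Rc Y a b) : Rc Y b a := by
  induction h with
  | refl => exact Relation.ReflTransGen.refl
  | tail _ k ih =>
    obtain ⟨s, e, q⟩ := k
    exact Relation.ReflTransGen.head ⟨s, Y.e_symm e, by rw [q, g_mul_g_mul]⟩ ih

theorem Rc.mul {a b : Y.Om × W} (h : Rc Y a b) (γ : W) : Rc Y (a.1, a.2 * γ) (b.1, b.2 * γ) := by
  induction h with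
  | refl => exact Relation.ReflTransGen.refl
  | tail _ k ih =>
    obtain ⟨s, e, q⟩ := k
    exact Relation.ReflTransGen.tail ih ⟨s, e, by rw [q, mul_assoc]⟩

theorem Rc.valid {a b : Y.Om × W} (h : Rc Y a b) (k : a.2 • o = Y.f a.1) : b.2 • o = Y.f b.1 := by
  induction h with
  | refl => exact k
  | tail _ e ih =>
    obtain ⟨s, e, q⟩ := e
    rw [q, mul_smul, ih, Y.e_f e]

/-- The image of the fundamental group of the thick component of `y0`. -/
def mono (Y : PS B) (y0 : Y.Om) (w0 : W) : Subgroup W where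
  carrier := {γ | Rc Y (y0, w0) (y0, w0 * γ)}
  one_mem' := by
    show Rc Y (y0, w0) (y0, w0 * 1)
    rw [mul_one]; exact Relation.ReflTransGen.refl
  mul_mem' := fun {a b} ha hb => by
    have := Rc.mul ha b
    show Rc Y (y0, w0) (y0, w0 * (a * b))
    rw [← mul_assoc]
    exact Rc.trans hb this
  inv_mem' := fun {a} ha => by
    have := Rc.mul ha a⁻¹
    simp only [mul_inv_cancel_right] at this
    exact this.symm

theorem mem_mono {y0 y : Y.Om} {w0 a b : W} (h : Rc Y (y0, w0) (y, a)) (k : Rc Y (y0, w0) (y, b)) :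
    a⁻¹ * b ∈ mono Y y0 w0 := by
  have := h.mul (a⁻¹ * b)
  simp only [mul_inv_cancel_left] at this
  exact k.trans this.symm

theorem Ad.one {G : Type} [Group G] {P : Subgroup G} {θ : G → ZMod 2} (h : Ad P θ) : θ 1 = 0 := by
  have := h 1 P.one_mem 1 P.one_mem
  rw [mul_one, F2_add_self] at this
  exact this

theorem core {x0 : Y.Om} {r μ : ℕ} (hI : Y.Inv o x0 r μ) (hT : Trans o) {ψ η : W → ℤ} {τ : W}
    (hτ : τ • o = o) (h1 : ψ τ = 1) (eqv : ∀ w γ, γ • o = o → η (w * γ) = η w + ψ γ)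
    (hη : ∀ s x y w, Y.e s x y → w • o = Y.f x → η (g s * w) = η w) (y0 : Y.Om) (w0 : W) :
    ∃ Φ : (W → F2) → F2 → Fin r → F2, ∀ θ θ' ε ε', Ad (mono Y y0 w0) θ → Ad (mono Y y0 w0) θ' →
      Φ θ ε = Φ θ' ε' → (∀ p ∈ mono Y y0 w0, θ p = θ' p) ∧ ε = ε' := by
  classical
  obtain ⟨Λ, hΛ, -⟩ := hI
  obtain ⟨lam, -, hl⟩ := hΛ.b1
  choose t ht using hT
  have hp : ∀ y, ∃ w, (∃ w, Rc Y (y0, w0) (y, w)) → Rc Y (y0, w0) (y, w) := fun y => by
    by_cases k : ∃ w, Rc Y (y0, w0) (y, w)
    · exact ⟨k.choose, fun _ => k.choose_spec⟩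
    · exact ⟨1, fun q => absurd q k⟩
  choose p hp using hp
  have hJ : ∀ u w w' : W, w • o = w' • o → η (u * w) - η w = η (u * w') - η w' := by
    intro u w w' e
    have k : (w⁻¹ * w') • o = o := by rw [mul_smul, ← e, inv_smul_smul]
    have e1 := eqv w _ k
    have e2 := eqv (u * w) _ k
    rw [mul_inv_cancel_left] at e1
    rw [mul_assoc, mul_inv_cancel_left] at e2
    omega
  obtain ⟨c, ce, cd0⟩ : ∃ c : (W → F2) → F2 → Y.Coch Unit, (∀ θ ε s x y u,
      c θ ε (.edge s x y) u =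
        if ∃ w, Rc Y (y0, w0) (x, w) then θ ((p y)⁻¹ * (g s * p x)) else 0) ∧ ∀ θ ε a u,
      c θ ε (.dart a) u =
        ε * ((η (Y.lab a * t (Y.f (Y.src a))) - η (t (Y.f (Y.src a))) : ℤ) : F2) :=
    ⟨fun θ ε l _ => match l with
      | .edge s x y => if ∃ w, Rc Y (y0, w0) (x, w) then θ ((p y)⁻¹ * (g s * p x)) else 0
      | .dart a => ε * ((η (Y.lab a * t (Y.f (Y.src a))) - η (t (Y.f (Y.src a))) : ℤ) : F2),
      fun _ _ _ _ _ _ => rfl, fun _ _ _ _ => rfl⟩
  have cd : ∀ θ ε a u w, w • o = Y.f (Y.src a) →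
      c θ ε (.dart a) u = ε * ((η (Y.lab a * w) - η w : ℤ) : F2) := fun θ ε a u w e => by
    rw [cd0, hJ _ w (t (Y.f (Y.src a))) (by rw [e, ht])]
  have hU : ∀ {s x y}, Y.e s x y → (∃ w, Rc Y (y0, w0) (x, w)) → ∃ w, Rc Y (y0, w0) (y, w) :=
    fun e ⟨_, k⟩ => ⟨_, k.step e⟩
  have hm : ∀ {s x y}, Y.e s x y → (∃ w, Rc Y (y0, w0) (x, w)) →
      (p y)⁻¹ * (g s * p x) ∈ mono Y y0 w0 := fun e k =>
    mem_mono (hp _ (hU e k)) ((hp _ k).step e)
  have cadd : ∀ θ θ' ε ε', c (θ + θ') (ε + ε') = c θ ε + c θ' ε' := by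
    intro θ θ' ε ε'
    funext l u
    cases l with
    | edge s x y =>
      simp only [Pi.add_apply, ce]
      split_ifs <;> simp
    | dart a => simp only [Pi.add_apply, cd0, add_mul]
  have cc : ∀ θ ε, Ad (mono Y y0 w0) θ → Cocyc (c θ ε) := by
    intro θ ε hθ
    refine ⟨fun s x y u e => ?_, fun a u => ?_, fun s t x0 x1 x2 x3 u hst e0 e1 e2 e3 => ?_⟩
    · simp only [ce]
      by_cases k : ∃ w, Rc Y (y0, w0) (x, w)
      · rw [if_pos k, if_pos (hU e k)]
        have := hθ _ (hm (Y.e_symm e) (hU e k)) _ (hm e k)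
        rw [show (p x)⁻¹ * (g s * p y) * ((p y)⁻¹ * (g s * p x)) = 1 by simp [mul_assoc],
          hθ.one] at this
        revert this
        generalize θ ((p x)⁻¹ * (g s * p y)) = a1
        generalize θ ((p y)⁻¹ * (g s * p x)) = a2
        revert a1 a2
        decide
      · rw [if_neg k, if_neg fun q => k (hU (Y.e_symm e) q)]
    · rw [cd θ ε a u _ (ht _), cd θ ε (Y.rev a) _ (Y.lab a * t (Y.f (Y.src a)))
        (by rw [mul_smul, ht, Y.f_rev]), Y.lab_rev, inv_mul_cancel_left]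
      push_cast
      rw [CharTwo.sub_eq_add, CharTwo.sub_eq_add, add_comm]
    · simp only [ce]
      by_cases k : ∃ w, Rc Y (y0, w0) (x0, w)
      · have k1 := hU e0 k
        have k2 := hU e1 k1
        have k3 := hU e2 k2
        rw [if_pos k, if_pos k1, if_pos k2, if_pos k3]
        have m0 := hm e0 k
        have m1 := hm e1 k1
        have m2 := hm e2 k2
        have m3 := hm e3 k3
        have := hθ _ (mul_mem m3 m2) _ (mul_mem m1 m0)
        rw [hθ _ m3 _ m2, hθ _ m1 _ m0, show (p x0)⁻¹ * (g t * p x3) * ((p x3)⁻¹ * (g s * p x2)) *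
          ((p x2)⁻¹ * (g t * p x1) * ((p x1)⁻¹ * (g s * p x0))) = 1 by
            simp only [mul_assoc, mul_inv_cancel_left]
            rw [← mul_assoc (g s) (g t), g_comm hst]
            simp [mul_assoc], hθ.one] at this
        rw [this]
        ring
      · have k1 := fun q => k (hU (Y.e_symm e0) q)
        have k2 := fun q => k1 (hU (Y.e_symm e1) q)
        have k3 := fun q => k2 (hU (Y.e_symm e2) q)
        rw [if_neg k, if_neg k1, if_neg k2, if_neg k3]
        simp
  have main : ∀ θ ε, Ad (mono Y y0 w0) θ → Cobd (c θ ε) →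
      (∀ q ∈ mono Y y0 w0, θ q = 0) ∧ ε = 0 := by
    rintro θ ε hθ ⟨φ, hφ⟩
    have s1 : ∀ b, Rc Y (y0, w0) b →
        θ ((p b.1)⁻¹ * b.2) + φ b.1 () = θ ((p y0)⁻¹ * w0) + φ y0 () := by
      intro b hb
      induction hb with
      | refl => rfl
      | @tail a b k e ih =>
        obtain ⟨s, e, q⟩ := e
        have k0 : ∃ w, Rc Y (y0, w0) (a.1, w) := ⟨a.2, k⟩
        have e1 := hφ.ed s _ _ () e
        rw [ce, if_pos k0] at e1
        have e2 := hθ _ (hm e k0) _ (mem_mono (hp _ k0) (show Rc Y (y0, w0) (a.1, a.2) from k))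
        rw [show (p b.1)⁻¹ * (g s * p a.1) * ((p a.1)⁻¹ * a.2) = (p b.1)⁻¹ * b.2 by
          rw [q]; simp [mul_assoc], e1] at e2
        rw [e2, ← ih]
        have := F2_add_self (φ b.1 ())
        linear_combination this
    have s2 : ∀ q ∈ mono Y y0 w0, θ q = 0 := by
      intro q hq
      have e1 := s1 _ hq
      have k0 : Rc Y (y0, w0) (y0, w0) := Relation.ReflTransGen.refl
      have e2 := hθ _ (mem_mono (hp _ ⟨_, k0⟩) k0) q hq
      rw [mul_assoc] at e2
      rw [e2] at e1
      linear_combination e1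
    refine ⟨s2, ?_⟩
    have s3 := hΛ.h0.2 F2 (fun x w => if w • o = Y.f x then φ x () + ε * (η w : F2) else 0)
      ⟨fun s x y w e => by
        by_cases k : w • o = Y.f x
        · rw [if_pos k, if_pos (by rw [mul_smul, k, Y.e_f e]), hη s x y w e k]
          have e1 := hφ.ed s _ _ () e
          have e2 : c θ ε (.edge s x y) () = 0 := by
            rw [ce]
            split_ifs with q
            exacts [s2 _ (hm e q), rfl]
          have := F2_add_self (φ x ())
          rw [e2] at e1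
          linear_combination -e1 - this
        · rw [if_neg k, if_neg fun q => k (by
            rw [mul_smul, Y.e_f e] at q; exact smul_left_cancel _ q)],
      fun a w => by
        by_cases k : w • o = Y.f (Y.src a)
        · rw [if_pos k, if_pos (by rw [mul_smul, k, Y.f_rev])]
          have e1 := hφ.da a ()
          rw [cd θ ε a () w k] at e1
          push_cast at e1
          have := F2_add_self (φ (Y.src (Y.rev a)) ())
          linear_combination e1 + this
        · rw [if_neg k, if_neg fun q => k (by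
            rw [mul_smul, Y.f_rev] at q; exact smul_left_cancel _ q)]⟩ x0 τ
      (by rw [hτ, hΛ.h0.1])
    have e1 := eqv 1 τ hτ
    rw [one_mul, h1] at e1
    rw [if_pos (by rw [hτ, hΛ.h0.1]), if_pos (by rw [one_smul, hΛ.h0.1]), e1] at s3
    push_cast at s3
    linear_combination s3
  refine ⟨fun θ ε i => ev (c θ ε) (lam i) (), fun θ θ' ε ε' hθ hθ' e => ?_⟩
  have hA : Ad (mono Y y0 w0) (θ + θ') := fun a ha b hb => by
    simp only [Pi.add_apply, hθ a ha b hb, hθ' a ha b hb]
    ring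
  obtain ⟨k1, k2⟩ := main _ (ε + ε') hA (hl _ (cc _ _ hA) fun i => by
    rw [cadd, ZLowA.ev_add, show ev (c θ ε) (lam i) () = ev (c θ' ε') (lam i) () from congrFun e i,
      F2_add_self])
  have two : ∀ a b : F2, a + b = 0 → a = b := by decide
  exact ⟨fun q hq => two _ _ (k1 q hq), two _ _ k2⟩

theorem lift {A : Set W} (hf : ∀ y w, w ∈ A → w • o = Y.f y → ∀ s, ¬ Y.Free y s) {y : Y.Om}
    {w w' : W} (h : Pa A w w') (k : w • o = Y.f y) : ∃ y', Rc Y (y, w) (y', w') := by
  induction h with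
  | refl => exact ⟨y, Relation.ReflTransGen.refl⟩
  | tail _ e ih =>
    obtain ⟨a, -, s, rfl⟩ := e
    obtain ⟨y', q⟩ := ih
    obtain ⟨z, hz⟩ := not_not.1 (hf y' _ a (q.valid k) s)
    exact ⟨z, q.step hz⟩

end Pool.Agent.MP_df844f_gt.FB

end
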