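import Pool.Agent.MP_df844f_gt.fb.Core

/-! The first cohomology of a state: classes of a thick component and one class killing it. -/

set_option autoImplicit false
set_option linter.unusedSectionVars false

noncomputable section

namespace Pool.Agent.MP_df844f_gt.FB

open Pool.Agent.MP_df844f_gt.RA PS

variable [Dat] {B : Type} [MulAction W B] {Y : PS B} {o : B}

theorem core2 {x0 : Y.Om} {r μ : ℕ} (hI : Y.Inv o x0 r μ) (hT : Trans o) {χ η : W → F2} {τ : W}
    (hτ : τ • o = o) (h1 : χ τ = 1) (eqv : ∀ w γ, γ • o = o → η (w * γ) = η w + χ γ)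
    (y0 : Y.Om) (w0 : W) (hv : w0 • o = Y.f y0) (h0 : ∀ p ∈ mono Y y0 w0, χ p = 0) :
    ∃ Φ : (W → F2) → F2 → Fin r → F2, ∀ θ θ' ε ε', Ad (mono Y y0 w0) θ → Ad (mono Y y0 w0) θ' →
      Φ θ ε = Φ θ' ε' → (∀ p ∈ mono Y y0 w0, θ p = θ' p) ∧ ε = ε' := by
  classical
  obtain ⟨Λ, hΛ, -⟩ := hI
  obtain ⟨lam, -, hl⟩ := hΛ.b1
  choose t ht using hT
  have hp : ∀ y, ∃ w, (∃ w, Rc Y (y0, w0) (y, w)) → Rc Y (y0, w0) (y, w) := fun y => by
    by_cases k : ∃ w, Rc Y (y0, w0) (y, w)
    · exact ⟨k.choose, fun _ => k.choose_spec⟩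
    · exact ⟨1, fun q => absurd q k⟩
  choose p hp using hp
  obtain ⟨D, hD⟩ : ∃ D : W → B → F2, ∀ u b w, w • o = b → D u b = η (u * w) + η w := by
    refine ⟨fun u b => η (u * t b) + η (t b), fun u b w e => ?_⟩
    have k : (w⁻¹ * t b) • o = o := by rw [mul_smul, ht, ← e, inv_smul_smul]
    have e1 := eqv w _ k
    have e2 := eqv (u * w) _ k
    rw [mul_inv_cancel_left] at e1
    rw [mul_assoc, mul_inv_cancel_left] at e2
    have := F2_add_self (χ (w⁻¹ * t b))
    show η (u * t b) + η (t b) = _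
    linear_combination e1 + e2 + this
  obtain ⟨a, ha⟩ : ∃ a : (W → F2) → S → Y.Om → Y.Om → F2, ∀ θ s x y, a θ s x y =
      if ∃ w, Rc Y (y0, w0) (x, w) then θ ((p y)⁻¹ * (g s * p x)) else 0 :=
    ⟨_, fun _ _ _ _ => rfl⟩
  obtain ⟨c, ce, cd⟩ : ∃ c : (W → F2) → F2 → Y.Coch Unit, (∀ θ ε s x y u,
      c θ ε (.edge s x y) u = a θ s x y + ε * D (g s) (Y.f x)) ∧ ∀ θ ε b u,
      c θ ε (.dart b) u = ε * D (Y.lab b) (Y.f (Y.src b)) :=
    ⟨fun θ ε l _ => match l with
      | .edge s x y => a θ s x y + ε * D (g s) (Y.f x)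
      | .dart b => ε * D (Y.lab b) (Y.f (Y.src b)),
      fun _ _ _ _ _ _ => rfl, fun _ _ _ _ => rfl⟩
  have hU : ∀ {s x y}, Y.e s x y → (∃ w, Rc Y (y0, w0) (x, w)) → ∃ w, Rc Y (y0, w0) (y, w) :=
    fun e ⟨_, k⟩ => ⟨_, k.step e⟩
  have hm : ∀ {s x y}, Y.e s x y → (∃ w, Rc Y (y0, w0) (x, w)) →
      (p y)⁻¹ * (g s * p x) ∈ mono Y y0 w0 := fun e k =>
    mem_mono (hp _ (hU e k)) ((hp _ k).step e)
  have he : ∀ {s x y w}, Y.e s x y → w • o = Y.f x → (g s * w) • o = Y.f y := fun e k => by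
    rw [mul_smul, k, Y.e_f e]
  have cadd : ∀ θ θ' ε ε', c (θ + θ') (ε + ε') = c θ ε + c θ' ε' := by
    intro θ θ' ε ε'
    funext l u
    cases l with
    | edge s x y =>
      simp only [Pi.add_apply, ce, ha]
      split_ifs <;> ring
    | dart a => simp only [Pi.add_apply, cd, add_mul]
  have cc : ∀ θ ε, Ad (mono Y y0 w0) θ → Cocyc (c θ ε) := by
    intro θ ε hθ
    refine ⟨fun s x y u e => ?_, fun b u => ?_, fun s s' x0 x1 x2 x3 u hst e0 e1 e2 e3 => ?_⟩
    · have q1 : a θ s y x = a θ s x y := by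
        simp only [ha]
        by_cases k : ∃ w, Rc Y (y0, w0) (x, w)
        · rw [if_pos k, if_pos (hU e k)]
          have := hθ _ (hm (Y.e_symm e) (hU e k)) _ (hm e k)
          rw [show (p x)⁻¹ * (g s * p y) * ((p y)⁻¹ * (g s * p x)) = 1 by simp [mul_assoc],
            hθ.one] at this
          revert this
          generalize θ ((p x)⁻¹ * (g s * p y)) = a1
          generalize θ ((p y)⁻¹ * (g s * p x)) = a2
          revert a1 a2
          decide
        · rw [if_neg k, if_neg fun q => k (hU (Y.e_symm e) q)]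
      rw [ce, ce, q1, hD _ _ _ (ht (Y.f x)), hD _ _ _ (he e (ht _)), g_mul_g_mul, add_comm (η _)]
    · rw [cd, cd, hD _ _ _ (ht (Y.f (Y.src b))), hD _ _ (Y.lab b * t (Y.f (Y.src b)))
        (by rw [mul_smul, ht, Y.f_rev]), Y.lab_rev, inv_mul_cancel_left, add_comm]
    · have q1 : a θ s x0 x1 + a θ s' x1 x2 + a θ s x2 x3 + a θ s' x3 x0 = 0 := by
        simp only [ha]
        by_cases k : ∃ w, Rc Y (y0, w0) (x0, w)
        · have k1 := hU e0 k
          have k2 := hU e1 k1
          have k3 := hU e2 k2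
          rw [if_pos k, if_pos k1, if_pos k2, if_pos k3]
          have m0 := hm e0 k
          have m1 := hm e1 k1
          have m2 := hm e2 k2
          have m3 := hm e3 k3
          have := hθ _ (mul_mem m3 m2) _ (mul_mem m1 m0)
          rw [hθ _ m3 _ m2, hθ _ m1 _ m0, show (p x0)⁻¹ * (g s' * p x3) *
            ((p x3)⁻¹ * (g s * p x2)) *
            ((p x2)⁻¹ * (g s' * p x1) * ((p x1)⁻¹ * (g s * p x0))) = 1 by
              simp only [mul_assoc, mul_inv_cancel_left]
              rw [← mul_assoc (g s) (g s'), g_comm hst]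
              simp [mul_assoc], hθ.one] at this
          rw [this]
          ring
        · have k1 := fun q => k (hU (Y.e_symm e0) q)
          have k2 := fun q => k1 (hU (Y.e_symm e1) q)
          have k3 := fun q => k2 (hU (Y.e_symm e2) q)
          rw [if_neg k, if_neg k1, if_neg k2, if_neg k3]
          simp
      have v0 := ht (Y.f x0)
      have v1 := he e0 v0
      have v2 := he e1 v1
      have v3 := he e2 v2
      rw [ce, ce, ce, ce, hD _ _ _ v0, hD _ _ _ v1, hD _ _ _ v2, hD _ _ _ v3,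
        show g s' * (g s * (g s' * (g s * t (Y.f x0)))) = t (Y.f x0) by
          rw [← mul_assoc (g s) (g s'), g_comm hst]
          simp [mul_assoc]]
      have t0 := F2_add_self (η (t (Y.f x0)))
      have t1 := F2_add_self (η (g s * t (Y.f x0)))
      have t2 := F2_add_self (η (g s' * (g s * t (Y.f x0))))
      have t3 := F2_add_self (η (g s * (g s' * (g s * t (Y.f x0)))))
      linear_combination q1 + ε * (t0 + t1 + t2 + t3)
  have main : ∀ θ ε, Ad (mono Y y0 w0) θ → Cobd (c θ ε) →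
      (∀ q ∈ mono Y y0 w0, θ q = 0) ∧ ε = 0 := by
    rintro θ ε hθ ⟨φ, hφ⟩
    have s1 : ∀ b, Rc Y (y0, w0) b → θ ((p b.1)⁻¹ * b.2) + φ b.1 () + ε * η b.2 =
        θ ((p y0)⁻¹ * w0) + φ y0 () + ε * η w0 := by
      intro b hb
      induction hb with
      | refl => rfl
      | @tail z b k e ih =>
        obtain ⟨s, e, q⟩ := e
        have k0 : ∃ w, Rc Y (y0, w0) (z.1, w) := ⟨z.2, k⟩
        have e1 : _ = φ z.1 () + φ b.1 () := hφ.ed s _ _ () e
        rw [ce, ha, if_pos k0, hD _ _ _ (Rc.valid k hv), ← q] at e1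
        have e2 := hθ _ (hm e k0) _ (mem_mono (hp _ k0) (show Rc Y (y0, w0) (z.1, z.2) from k))
        rw [show (p b.1)⁻¹ * (g s * p z.1) * ((p z.1)⁻¹ * z.2) = (p b.1)⁻¹ * b.2 by
          rw [q]; simp [mul_assoc]] at e2
        rw [e2, ← ih]
        have t1 := F2_add_self (φ b.1 ())
        have t2 := F2_add_self (η z.2)
        linear_combination e1 + t1 - ε * t2
    have s2 : ∀ q ∈ mono Y y0 w0, θ q = 0 := by
      intro q hq
      have e1 := s1 _ hq
      have k0 : Rc Y (y0, w0) (y0, w0) := Relation.ReflTransGen.refl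
      have e2 := hθ _ (mem_mono (hp _ ⟨_, k0⟩) k0) q hq
      have e3 : (w0 * q) • o = Y.f y0 := Rc.valid hq hv
      rw [mul_smul, ← hv] at e3
      have e4 := eqv w0 q (smul_left_cancel _ e3)
      rw [mul_assoc] at e2
      rw [e2, e4, h0 q hq] at e1
      linear_combination e1
    refine ⟨s2, ?_⟩
    have s3 := hΛ.h0.2 F2 (fun x w => if w • o = Y.f x then φ x () + ε * η w else 0)
      ⟨fun s x y w e => by
        by_cases k : w • o = Y.f x
        · rw [if_pos k, if_pos (he e k)]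
          have e1 : _ = φ x () + φ y () := hφ.ed s _ _ () e
          have e2 : a θ s x y = 0 := by
            rw [ha]
            split_ifs with q
            exacts [s2 _ (hm e q), rfl]
          rw [ce, e2, hD _ _ _ k] at e1
          have t1 := F2_add_self (φ y ())
          have t2 := F2_add_self (η w)
          linear_combination e1 + t1 - ε * t2
        · rw [if_neg k, if_neg fun q => k (by
            rw [mul_smul, Y.e_f e] at q; exact smul_left_cancel _ q)],
      fun b w => by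
        by_cases k : w • o = Y.f (Y.src b)
        · rw [if_pos k, if_pos (by rw [mul_smul, k, Y.f_rev])]
          have e1 : _ = φ (Y.src b) () + φ (Y.src (Y.rev b)) () := hφ.da b ()
          rw [cd, hD _ _ _ k] at e1
          have t1 := F2_add_self (φ (Y.src (Y.rev b)) ())
          have t2 := F2_add_self (η w)
          linear_combination e1 + t1 - ε * t2
        · rw [if_neg k, if_neg fun q => k (by
            rw [mul_smul, Y.f_rev] at q; exact smul_left_cancel _ q)]⟩ x0 τ
      (by rw [hτ, hΛ.h0.1])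
    have e1 := eqv 1 τ hτ
    rw [one_mul, h1] at e1
    rw [if_pos (by rw [hτ, hΛ.h0.1]), if_pos (by rw [one_smul, hΛ.h0.1]), e1] at s3
    linear_combination s3
  refine ⟨fun θ ε i => ev (c θ ε) (lam i) (), fun θ θ' ε ε' hθ hθ' e => ?_⟩
  have hA : Ad (mono Y y0 w0) (θ + θ') := fun a ha b hb => by
    simp only [Pi.add_apply, hθ a ha b hb, hθ' a ha b hb]
    ring
  obtain ⟨k1, k2⟩ := main _ (ε + ε') hA (hl _ (cc _ _ hA) fun i => by
    rw [cadd, ZLowA.ev_add, show ev (c θ ε) (lam i) () = ev (c θ' ε') (lam i) () from congrFun e i,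
      F2_add_self])
  have two : ∀ a b : F2, a + b = 0 → a = b := by decide
  exact ⟨fun q hq => two _ _ (k1 q hq), two _ _ k2⟩

end Pool.Agent.MP_df844f_gt.FB

end
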