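import Mathlib

/-! Surface groups. -/

namespace Pool.Agent.MP_df844f_gt.FB

/-- The relator `[a_1, b_1] ⋯ [a_g, b_g]`. -/
def surfRel (g : ℕ) : FreeGroup (Fin g × Bool) :=
  (List.ofFn fun i : Fin g => FreeGroup.of (i, false) * FreeGroup.of (i, true) *
    (FreeGroup.of (i, false))⁻¹ * (FreeGroup.of (i, true))⁻¹).prod

/-- The fundamental group of the closed orientable surface of genus `g`. -/
abbrev Surf (g : ℕ) : Type := PresentedGroup ({surfRel g} : Set (FreeGroup (Fin g × Bool)))

end Pool.Agent.MP_df844f_gt.FB
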