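import Pool.Agent.MP_df844f_gt.fb.Def

/-! Closed surface groups, orientable or not. -/

namespace Pool.Agent.MP_df844f_gt.FB

/-- The relator `a_1 a_1 ⋯ a_k a_k`. -/
def nsurfRel (k : ℕ) : FreeGroup (Fin k) :=
  (List.ofFn fun i : Fin k => FreeGroup.of i * FreeGroup.of i).prod

/-- The fundamental group of the closed non-orientable surface with `k` cross-caps. -/
abbrev NSurf (k : ℕ) : Type := PresentedGroup ({nsurfRel k} : Set (FreeGroup (Fin k)))

/-- `A` is the group of a closed surface of Euler characteristic `2 - k`. -/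
def IsSurf (k : ℕ) (A : Type) [Group A] : Prop :=
  (∃ g, k = 2 * g ∧ Nonempty (A ≃* Surf g)) ∨ Nonempty (A ≃* NSurf k)

end Pool.Agent.MP_df844f_gt.FB
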