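import Pool.Agent.MP_df844f_gt.fb.Main2

/-! The statement for homomorphisms to the infinite dihedral group. -/

set_option autoImplicit false
set_option linter.unusedSectionVars false

noncomputable section

namespace Pool.Agent.MP_df844f_gt.FB

open Pool.Agent.MP_df844f_gt.RA PS DihedralGroup

/-- The translation part. -/
def dv : DihedralGroup 0 → ℤ
  | .r i => i
  | .sr i => i

/-- Being a translation. -/
def dr : DihedralGroup 0 → Prop
  | .r _ => True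
  | .sr _ => False

/-- The character killing the reflection `sr i`. -/
def dc (i : ℤ) : DihedralGroup 0 → ZMod 2
  | .r a => ((dv (.r a) : ℤ) : ZMod 2)
  | .sr a => ((dv (.sr a) + i : ℤ) : ZMod 2)

theorem dr_mul {x y : DihedralGroup 0} (h : dr x) (k : dr y) :
    dr (x * y) ∧ dv (x * y) = dv x + dv y := by
  cases x <;> cases y <;> first | exact ⟨trivial, rfl⟩ | exact h.elim | exact k.elim

theorem dr_inv {x : DihedralGroup 0} (h : dr x) : dr x⁻¹ := by
  cases x <;> first | exact trivial | exact h.elim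

theorem dr_sr {x y : DihedralGroup 0} (h : ¬ dr x) (k : ¬ dr y) :
    dr (x⁻¹ * y) ∧ dv (x⁻¹ * y) = dv y - dv x := by
  cases x <;> cases y <;> first | exact ⟨trivial, rfl⟩ | exact (h trivial).elim |
    exact (k trivial).elim

theorem dr_eq {x : DihedralGroup 0} (h : dr x) : x = r 1 ^ dv x := by
  cases x with
  | r i => rw [r_one_zpow]; rfl
  | sr i => exact h.elim

theorem sr_eq {x : DihedralGroup 0} (h : ¬ dr x) : x = sr (dv x : ℤ) := by
  cases x with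
  | r i => exact (h trivial).elim
  | sr i => rfl

theorem dr_one {x : DihedralGroup 0} : x = 1 ↔ dr x ∧ dv x = 0 :=
  ⟨fun h => h ▸ ⟨trivial, rfl⟩, fun h => by rw [dr_eq h.1, h.2, zpow_zero]⟩

theorem dc_mul (i : ℤ) (x y : DihedralGroup 0) : dc i (x * y) = dc i x + dc i y := by
  have t : ∀ z : ZMod 2, z + z = 0 := by decide
  cases x with
  | r a => cases y with
    | r b =>
      show ((dv (r a) + dv (r b) : ℤ) : ZMod 2) = (dv (r a) : ℤ) + (dv (r b) : ℤ)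
      push_cast
      rfl
    | sr b =>
      show ((dv (sr b) - dv (r a) + i : ℤ) : ZMod 2) = (dv (r a) : ℤ) + (dv (sr b) + i : ℤ)
      push_cast
      linear_combination -t (dv (r a))
  | sr a => cases y with
    | r b =>
      show ((dv (sr a) + dv (r b) + i : ℤ) : ZMod 2) = (dv (sr a) + i : ℤ) + (dv (r b) : ℤ)
      push_cast
      ring
    | sr b =>
      show ((dv (sr b) - dv (sr a) : ℤ) : ZMod 2) = (dv (sr a) + i : ℤ) + (dv (sr b) + i : ℤ)
      push_cast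
      linear_combination -t (dv (sr a)) - t i

theorem mem_sr {i : ZMod 0} {x : DihedralGroup 0} :
    x ∈ Subgroup.zpowers (sr i) ↔ x = 1 ∨ x = sr i := by
  constructor
  · rintro ⟨k, rfl⟩
    have t : sr i ^ (2 : ℤ) = 1 := by rw [zpow_two, sr_mul_self]
    obtain ⟨m, rfl | rfl⟩ := Int.even_or_odd' k
    · exact Or.inl (by show sr i ^ (2 * m) = 1; rw [zpow_mul, t, one_zpow])
    · exact Or.inr (by show sr i ^ (2 * m + 1) = _; rw [zpow_add, zpow_mul, t, one_zpow, one_mul,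
        zpow_one])
  · rintro (rfl | rfl)
    exacts [one_mem _, Subgroup.mem_zpowers _]

theorem dc_zero {i : ℤ} {x : DihedralGroup 0} (h : x ∈ Subgroup.zpowers (sr (n := 0) i)) :
    dc i x = 0 := by
  rcases mem_sr.1 h with rfl | rfl
  · show (((0 : ℤ) : ℤ) : ZMod 2) = 0
    simp
  · show ((i + i : ℤ) : ZMod 2) = 0
    push_cast
    exact CharTwo.add_self_eq_zero _

theorem mkpi {G α : Type} [Group G] (A : Subgroup G) (ω : FreeGroup α)
    (e : A ≃* PresentedGroup ({ω} : Set (FreeGroup α))) :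
    ∃ π : FreeGroup α →* G, π.range = A ∧ π.ker = Subgroup.normalClosure {ω} := by
  refine ⟨A.subtype.comp (e.symm.toMonoidHom.comp (PresentedGroup.mk _)), ?_, ?_⟩
  · ext γ
    constructor
    · rintro ⟨u, rfl⟩
      exact (e.symm (PresentedGroup.mk _ u)).2
    · intro k
      obtain ⟨u, hu⟩ := PresentedGroup.mk_surjective _ (e ⟨γ, k⟩)
      refine ⟨u, ?_⟩
      show ((e.symm (PresentedGroup.mk _ u) : A) : G) = γ
      rw [hu, e.symm_apply_apply]
  · ext u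
    rw [MonoidHom.mem_ker, ← PresentedGroup.mk_eq_one_iff]
    show ((e.symm (PresentedGroup.mk _ u) : A) : G) = 1 ↔ _
    rw [OneMemClass.coe_eq_one, MulEquiv.map_eq_one_iff]

variable [Dat]

theorem lineA : ∃ ρ C : ℕ, ∀ (Γ : Subgroup W) [Γ.FiniteIndex],
    (∀ w, ∀ γ ∈ Γ, len (w * γ * w⁻¹) ≤ ρ → γ = 1) → ∀ φ : Γ →* DihedralGroup 0,
    r 1 ∈ φ.range → ∀ k : ℕ, 2 ≤ k →
    (∀ i, IsSurf k ((Subgroup.zpowers (sr i)).comap φ)) →
    (∀ (γ : Γ) (i : ℤ), φ γ = r 1 ^ i → (C * Group.rank Γ : ℤ) * |i| ≤ len γ) →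
    Group.rank Γ = k + 1 := by
  classical
  obtain ⟨ρ, C, h⟩ := low2
  refine ⟨ρ, C, fun Γ _ hth φ ⟨τ, hτ⟩ k hk hs hl => ?_⟩
  have up : Group.rank Γ ≤ k + 1 := by
    obtain ⟨α, _, ω, a1, -, ⟨e⟩⟩ := (hs 0).pres
    obtain ⟨π, b1, -⟩ := mkpi _ ω e
    have := Fintype.ofFinite α
    let T : Finset Γ := insert τ (Finset.univ.image fun a => π (FreeGroup.of a))
    refine (Group.rank_le (S := T) ?_).trans ((Finset.card_insert_le _ _).trans ?_)
    · rw [eq_top_iff]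
      intro γ _
      have k1 : τ ∈ Subgroup.closure (T : Set Γ) :=
        Subgroup.subset_closure (Finset.mem_coe.2 (Finset.mem_insert_self _ _))
      have k2 : π.range ≤ Subgroup.closure (T : Set Γ) := by
        rw [MonoidHom.range_eq_map, ← FreeGroup.closure_range_of, MonoidHom.map_closure]
        refine Subgroup.closure_mono ?_
        rintro _ ⟨_, ⟨a, rfl⟩, rfl⟩
        exact Finset.mem_coe.2 (Finset.mem_insert_of_mem
          (Finset.mem_image_of_mem _ (Finset.mem_univ a)))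
      have k3 : γ * (τ ^ dv (φ γ))⁻¹ ∈ π.range := by
        rw [b1, Subgroup.mem_comap, map_mul, map_inv, map_zpow, hτ, mem_sr, r_one_zpow]
        cases φ γ with
        | r i => exact Or.inl (mul_inv_cancel (r i))
        | sr i => exact Or.inr (congrArg sr (add_neg_cancel i))
      have := mul_mem (k2 k3) (zpow_mem k1 (dv (φ γ)))
      rwa [inv_mul_cancel_right] at this
    · refine Nat.add_le_add_right (Finset.card_image_le.trans ?_) 1
      rw [Finset.card_univ, ← Nat.card_eq_fintype_card, a1]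
  obtain ⟨T, t1, t2⟩ := Group.rank_spec Γ
  have t3 : (T.image Γ.subtype).card ≤ Group.rank Γ := t1 ▸ Finset.card_image_le
  obtain ⟨f, hf⟩ : ∃ f : W → DihedralGroup 0, ∀ γ : Γ, f γ = φ γ :=
    ⟨fun w => if c : w ∈ Γ then φ ⟨w, c⟩ else 1, fun γ => dif_pos γ.2⟩
  have fm : ∀ a ∈ Γ, ∀ b ∈ Γ, f (a * b) = f a * f b := fun a ha b hb => by
    have := hf (⟨a, ha⟩ * ⟨b, hb⟩)
    rw [map_mul, ← hf, ← hf] at this
    exact this
  have fi : ∀ a ∈ Γ, f a⁻¹ = (f a)⁻¹ := fun a ha => by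
    have := hf (⟨a, ha⟩⁻¹)
    rw [map_inv, ← hf] at this
    exact this
  have f1 : f 1 = 1 := (hf 1).trans (map_one φ)
  let Γ0 : Subgroup W :=
    { carrier := {w | w ∈ Γ ∧ dr (f w)}
      one_mem' := ⟨one_mem _, f1 ▸ trivial⟩
      mul_mem' := fun {a b} ha hb => ⟨mul_mem ha.1 hb.1, fm a ha.1 b hb.1 ▸ (dr_mul ha.2 hb.2).1⟩
      inv_mem' := fun {a} ha => ⟨inv_mem ha.1, fi a ha.1 ▸ dr_inv ha.2⟩ }
  have m0 : ∀ w, w ∈ Γ0 ↔ w ∈ Γ ∧ dr (f w) := fun _ => Iff.rfl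
  have hN : ∀ w, w ∈ φ.ker.map Γ.subtype ↔ w ∈ Γ ∧ f w = 1 := fun w =>
    ⟨fun ⟨γ, c, e⟩ => e ▸ ⟨γ.2, (hf γ).trans c⟩,
      fun ⟨c, e⟩ => ⟨⟨w, c⟩, (hf ⟨w, c⟩).symm.trans e, rfl⟩⟩
  have hq : ∀ a ∈ Γ, ∀ b ∈ Γ, ¬ dr (f a) → ¬ dr (f b) →
      dr (f (a⁻¹ * b)) ∧ dv (f (a⁻¹ * b)) = dv (f b) - dv (f a) := fun a ha b hb c d => by
    rw [fm _ (inv_mem ha) b hb, fi a ha]
    exact dr_sr c d
  refine le_antisymm up (le_trans (h Γ hth Γ0 (fun w c => c.1) (fun a ha b hb c d =>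
      ⟨mul_mem (inv_mem ha) hb, (hq a ha b hb (fun e => c ⟨ha, e⟩) fun e => d ⟨hb, e⟩).1⟩)
    (fun w => dv (f w)) τ (fun a ha b hb => ?_) ⟨τ.2, by rw [hf, hτ]; trivial⟩
    (by show dv (f τ) = 1; rw [hf, hτ]; rfl) (φ.ker.map Γ.subtype)
    (fun w => by rw [hN, m0, dr_one, and_assoc]) k hk (fun P p1 p2 => ?_) _ (CW.FinA.rank_pos Γ)
    (fun γ hγ => ?_) (T.image Γ.subtype) ?_ t3) t3)
  · show dv (f (a * b)) = _
    rw [fm a ha.1 b hb.1]
    exact (dr_mul ha.2 hb.2).2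
  · obtain ⟨i, hi⟩ : ∃ i : ℤ, ∀ p ∈ P, f p ∈ Subgroup.zpowers (sr (n := 0) i) := by
      have z : ∀ p ∈ P, dr (f p) → f p = 1 := fun p hp c =>
        dr_one.2 ⟨c, p2 p hp ⟨p1 hp, c⟩⟩
      by_cases c : ∃ p0 ∈ P, ¬ dr (f p0)
      · obtain ⟨p0, c1, c2⟩ := c
        refine ⟨dv (f p0), fun p hp => mem_sr.2 ?_⟩
        by_cases d : dr (f p)
        · exact Or.inl (z p hp d)
        · obtain ⟨e1, e2⟩ := hq p0 (p1 c1) p (p1 hp) c2 d
          have e3 : dv (f (p0⁻¹ * p)) = 0 :=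
            p2 _ (mul_mem (inv_mem c1) hp) ⟨p1 (mul_mem (inv_mem c1) hp), e1⟩
          rw [← show dv (f p) = dv (f p0) by omega]
          exact Or.inr (sr_eq d)
      · exact ⟨0, fun p hp => mem_sr.2 (Or.inl (z p hp (not_not.1 fun d => c ⟨p, hp, d⟩)))⟩
    obtain ⟨α, _, ω, a1, a2, ⟨e⟩⟩ := (hs i).pres
    obtain ⟨π, b1, b2⟩ := mkpi _ ω e
    have b3 : ∀ u, f (π u) = 1 ∨ f (π u) = sr (n := 0) i := fun u => by
      rw [hf]
      exact mem_sr.1 (Subgroup.mem_comap.1 (b1 ▸ ⟨u, rfl⟩ : π u ∈ _))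
    refine ⟨α, inferInstance, ω, Γ.subtype.comp π, fun w => dc i (f w), a1, a2, ?_,
      fun p hp => ?_, fi2 ⊤ _ fun a _ b _ c d => ?_, fun a ha b hb => ?_, ?_,
      fun p hp => dc_zero (hi p hp)⟩
    · rw [← b2, ← MonoidHom.comap_ker, Subgroup.ker_subtype, MonoidHom.comap_bot]
    · obtain ⟨u, hu⟩ : (⟨p, p1 hp⟩ : Γ) ∈ π.range := by
        rw [b1, Subgroup.mem_comap, ← hf]
        exact hi p hp
      exact ⟨u, congrArg Subtype.val hu⟩
    · have c' := (b3 a).resolve_left fun e => c ((hN _).2 ⟨(π a).2, e⟩)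
      have d' := (b3 b).resolve_left fun e => d ((hN _).2 ⟨(π b).2, e⟩)
      refine (hN _).2 ⟨(π _).2, ?_⟩
      show f (π (a⁻¹ * b)) = 1
      rw [hf] at c' d' ⊢
      rw [map_mul, map_mul, map_inv, map_inv, c', d', inv_mul_cancel]
    · show dc i (f (a * b)) = _
      rw [fm a ha b hb, dc_mul]
    · show dc i (f τ) = 1
      rw [hf, hτ]
      show (((1 : ℤ) : ℤ) : ZMod 2) = 1
      simp
  · have := hl ⟨γ, hγ.1⟩ (dv (f γ)) ((hf ⟨γ, hγ.1⟩).symm.trans (dr_eq hγ.2))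
    push_cast
    exact this
  · rw [Finset.coe_image, ← MonoidHom.map_closure, t2, ← MonoidHom.range_eq_map,
      Subgroup.range_subtype]

end Pool.Agent.MP_df844f_gt.FB

end
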