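import Pool.Agent.MP_df844f_gt.fb.Core

/-! The rank of a fibred finite index subgroup with long translation length. -/

set_option autoImplicit false
set_option linter.unusedSectionVars false

noncomputable section

namespace Pool.Agent.MP_df844f_gt.FB

open Pool.Agent.MP_df844f_gt.RA PS

theorem pig {B : Type} [Finite B] (q : ℕ) (O : ℕ → B → Prop)
    (hO : ∀ b, ∀ i < q, ∀ j < q, O i b → O j b → i = j) (X : Set B) (hX : X.ncard < q) :
    ∃ j < q, ∀ b ∈ X, ¬ O j b := by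
  by_contra k
  push Not at k
  choose f h1 h2 using k
  have := Set.ncard_le_ncard_of_injOn (s := (Set.univ : Set (Fin q))) (t := X)
    (fun j => f j.1 j.2) (fun j _ => h1 _ _)
    (fun i _ j _ e => Fin.ext (hO _ _ i.2 _ j.2 (h2 _ i.2) (by
      have e' : f i.1 i.2 = f j.1 j.2 := e
      rw [e']; exact h2 _ j.2))) (Set.toFinite _)
  rw [Set.ncard_univ, Nat.card_fin] at this
  omega

variable [Dat]

theorem bad_le {B : Type} [MulAction W B] (Y : PS B) :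
    (Y.f '' {x | ∃ s, Y.Free x s}).ncard ≤ Y.area := by
  have := Y.finO
  unfold PS.area
  refine le_trans (Set.ncard_le_ncard (t := (fun p : Y.Om × S => Y.f p.1) '' _) ?_
    (Set.toFinite _)) (Set.ncard_image_le (Set.toFinite _))
  rintro _ ⟨x, ⟨s, h⟩, rfl⟩
  exact ⟨(x, s), h, rfl⟩

theorem low : ∃ ρ C : ℕ, ∀ (Γ : Subgroup W) [Γ.FiniteIndex],
    (∀ w, ∀ γ ∈ Γ, len (w * γ * w⁻¹) ≤ ρ → γ = 1) → ∀ (ψ : W → ℤ) (τ : W), Adz Γ ψ → τ ∈ Γ →
    ψ τ = 1 → ∀ n : ℕ, 0 < n → ∀ π : FreeGroup (Fin n × Bool) →* W,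
    π.ker = Subgroup.normalClosure {surfRel n} → (∀ w, w ∈ π.range ↔ w ∈ Γ ∧ ψ w = 0) →
    ∀ m : ℕ, 0 < m → (∀ γ ∈ Γ, ((C * m : ℕ) : ℤ) * |ψ γ| ≤ len γ) → ∀ T : Finset W,
    Subgroup.closure (T : Set W) = Γ → T.card ≤ m → 2 * n + 1 ≤ T.card := by
  obtain ⟨A, ρ0, hm⟩ := CW.seqFB
  refine ⟨ρ0, 5 * (3 * A + 1), ?_⟩
  intro Γ _ hth ψ τ ha hτ h1 n hn π hk hr m hm0 hl T hT hc
  obtain ⟨ρ, hρ⟩ := exists_ht ha hl
  obtain ⟨q, hq⟩ : ∃ q, q = (3 * A + 1) * m := ⟨_, rfl⟩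
  rw [mul_assoc, ← hq] at hρ
  have hK : A * (T.card + 1) + A < q := by
    have e1 : A * (T.card + 1) ≤ A * (2 * m) := Nat.mul_le_mul_left _ (by omega)
    have e2 : A ≤ A * m := Nat.le_mul_of_pos_right _ hm0
    have e3 : q = A * (2 * m) + A * m + m := by rw [hq]; ring
    omega
  have fg : π.range.FG := (Group.fg_iff_subgroup_fg _).1 inferInstance
  choose I η hS using fun i => hρ.slab WAll.h1A (by omega) ha hτ h1 π.range hr fg i
  obtain ⟨o, ho⟩ : ∃ o, o = ((1 : W) : W ⧸ Γ) := ⟨_, rfl⟩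
  have hsm : ∀ w : W, w • o = (w : W ⧸ Γ) := fun w => by
    rw [ho, MulAction.Quotient.smul_coe, smul_eq_mul, mul_one]
  have heq : ∀ w w' : W, w • o = w' • o ↔ w⁻¹ * w' ∈ Γ := fun w w' => by
    rw [hsm, hsm, QuotientGroup.eq]
  have hst : ∀ γ : W, γ • o = o ↔ γ ∈ Γ := fun γ => by
    have := heq γ 1
    rwa [one_smul, mul_one, inv_mem_iff] at this
  have hTr : Trans o := fun b => by
    obtain ⟨w, rfl⟩ := QuotientGroup.mk_surjective b
    exact ⟨w, hsm w⟩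
  obtain ⟨O, hO⟩ : ∃ O : ℕ → W ⧸ Γ → Prop, ∀ j b, O j b ↔
      ∃ w, w • o = b ∧ |ρ w - 5 * (j : ℤ)| ≤ 2 := ⟨_, fun _ _ => Iff.rfl⟩
  have hO1 : ∀ b, ∀ i < q, ∀ j < q, O i b → O j b → i = j := by
    intro b i hi j hj e1 e2
    obtain ⟨w, a1, a2⟩ := (hO _ _).1 e1
    obtain ⟨w', a3, a4⟩ := (hO _ _).1 e2
    have e := hρ.eqv w _ ((heq w w').1 (a1.trans a3.symm))
    rw [mul_inv_cancel_left] at e
    rw [abs_le] at a2 a4
    rcases lt_trichotomy (ψ (w⁻¹ * w')) 0 with k | k | k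
    · have := Int.mul_le_mul_of_nonneg_left (show ψ (w⁻¹ * w') ≤ -1 by omega)
        (show (0 : ℤ) ≤ ((5 * q : ℕ) : ℤ) by omega)
      omega
    · rw [k] at e
      omega
    · have := Int.mul_le_mul_of_nonneg_left (show 1 ≤ ψ (w⁻¹ * w') by omega)
        (show (0 : ℤ) ≤ ((5 * q : ℕ) : ℤ) by omega)
      omega
  have hO2 : ∀ j : ℕ, ∀ w ∈ I (5 * (j : ℤ)), O j (w • o) := fun j w hw =>
    (hO _ _).2 ⟨w, rfl, by rw [(hS _).lev w hw]; simp⟩
  obtain ⟨Y, x0, μ, U, hI, har, ⟨j, hj, g1, w0, g2, y0, g3⟩, ⟨X, u1, u2⟩, hU⟩ := hm (W ⧸ Γ) o hTr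
    (fun w w' e hd => by
      have := hth w _ ((heq w w').1 e) (by
        rw [d_comm] at hd
        rwa [show w * (w⁻¹ * w') * w⁻¹ = w' * w⁻¹ by group])
      exact inv_mul_eq_one.1 this)
    T (by rw [hT, ho, MulAction.stabilizer_quotient])
    (fun Y => ∃ j < q, (∀ b ∈ Y.f '' {x | ∃ s, Y.Free x s}, ¬ O j b) ∧
      ∃ w ∈ I (5 * (j : ℤ)), w • o ∈ Set.range Y.f)
    (fun U => ∃ X : Set (W ⧸ Γ), X.ncard ≤ A * (T.card + 1) ∧
      ∀ j < q, (∃ w ∈ I (5 * (j : ℤ)), w • o ∈ U) → ∃ b ∈ X, O j b)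
    ⟨∅, by simp, fun j _ ⟨_, _, k⟩ => k.elim⟩
    (fun Y h k => ⟨_, (bad_le Y).trans h, fun j hj e => by
      by_contra k'
      exact k ⟨j, hj, fun b hb hb' => k' ⟨b, hb, hb'⟩, e⟩⟩)
    (fun Y h k => by
      have e1 := Set.ncard_add_ncard_compl (Set.range Y.f)
      have e2 := Set.ncard_union_le (Y.f '' {x | ∃ s, Y.Free x s}) (Set.range Y.f)ᶜ
      have e3 := bad_le Y
      unfold CW.sp at k
      obtain ⟨j, hj, e⟩ := pig q O hO1 (Y.f '' {x | ∃ s, Y.Free x s} ∪ (Set.range Y.f)ᶜ)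
        (by omega)
      obtain ⟨w, hw⟩ := (hS (5 * (j : ℤ))).ne
      exact ⟨j, hj, fun b hb => e b (Or.inl hb), w, hw,
        not_not.1 fun k' => e _ (Or.inr k') (hO2 j w hw)⟩)
  obtain ⟨i, hi, e⟩ := pig q O hO1 (X ∪ (Set.range Y.f \ U))
    (lt_of_le_of_lt (Set.ncard_union_le _ _) (by omega))
  have hno : ∀ w, ∀ γ ∈ Γ, w * γ ∈ I (5 * (i : ℤ)) → ∀ x, w • o ≠ Y.f x := by
    intro w γ hγ hw x k
    have k1 : (w * γ) • o = Y.f x := by rw [mul_smul, (hst γ).2 hγ, k]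
    by_cases k2 : (w * γ) • o ∈ U
    · obtain ⟨b, b1, b2⟩ := u2 i hi ⟨_, hw, k2⟩
      exact e b (Or.inl b1) b2
    · exact e _ (Or.inr ⟨⟨x, k1.symm⟩, k2⟩) (hO2 i _ hw)
  have hη : ∀ s x y w, Y.e s x y → w • o = Y.f x →
      η (5 * (i : ℤ)) (g s * w) = η (5 * (i : ℤ)) w := by
    intro s x y w e k
    rcases lt_trichotomy (η (5 * (i : ℤ)) (g s * w)) (η (5 * (i : ℤ)) w) with c | c | c
    · obtain ⟨γ, c1, c2⟩ := (hS _).jump s w c
      exact (hno w γ c1 c2 x k).elim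
    · exact c
    · obtain ⟨γ, c1, c2⟩ := (hS _).jump s (g s * w) (by rwa [g_mul_g_mul])
      exact (hno _ γ c1 c2 y (by rw [mul_smul, k, Y.e_f e])).elim
  obtain ⟨Φ, hΦ⟩ := core hI hTr ((hst τ).2 hτ) h1
    (fun w γ k => (hS (5 * (i : ℤ))).eqv w γ ((hst γ).1 k)) hη y0 w0
  have hRc : ∀ b, Rc Y (y0, w0) b → η (5 * (i : ℤ)) b.2 = η (5 * (i : ℤ)) w0 := by
    intro b hb
    induction hb with
    | refl => rfl
    | @tail a b k c ih =>
      obtain ⟨s, c1, c2⟩ := c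
      rw [c2, hη s _ _ _ c1 (Rc.valid k g3.symm), ih]
  have hP : ∀ p ∈ mono Y y0 w0, p ∈ π.range := by
    intro p hp
    have k1 : (w0 * p) • o = Y.f y0 := Rc.valid hp g3.symm
    have k2 : p ∈ Γ := by
      have := (heq w0 (w0 * p)).1 (g3.symm.trans k1.symm)
      rwa [inv_mul_cancel_left] at this
    have k3 : η (5 * (i : ℤ)) (w0 * p) = η (5 * (i : ℤ)) w0 := hRc _ hp
    rw [(hS _).eqv w0 p k2] at k3
    exact (hr p).2 ⟨k2, by omega⟩
  have hz : ∀ u, ∃ y, Rc Y (y0, w0) (y, w0 * π u) := fun u => by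
    obtain ⟨k1, k2⟩ := (hr (π u)).1 ⟨u, rfl⟩
    exact lift (fun y w hw k s c => g1 _ ⟨y, ⟨s, c⟩, rfl⟩ ((hO _ _).2 ⟨w, k, hw⟩))
      ((hS _).con w0 g2 _ ((hS _).inv w0 g2 _ k1 k2)) g3.symm
  choose z hz using hz
  have := Y.finO
  have hfin : Finite (FreeGroup (Fin n × Bool) ⧸ (mono Y y0 w0).comap π) :=
    Finite.of_injective (fun b => z b.out) fun a b c => by
      rw [← a.out_eq', ← b.out_eq', QuotientGroup.eq, Subgroup.mem_comap, map_mul, map_inv]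
      have c' : z a.out = z b.out := c
      have := mem_mono (hz a.out) (c' ▸ hz b.out)
      rwa [mul_inv_rev, mul_assoc, inv_mul_cancel_left] at this
  have hfi : ((mono Y y0 w0).comap π).FiniteIndex := Subgroup.finiteIndex_of_finite_quotient
  have hα : Nat.card (Fin n × Bool) = 2 * n := by simp [mul_comm]
  have key : ∀ ε, 2 ^ (2 * n) ≤ ((fun θ => Φ θ ε) '' {θ | Ad (mono Y y0 w0) θ}).ncard := fun ε =>
    hα ▸ surf (by omega) (surfRel n) (fun f => surfRel_map n f) π hk (mono Y y0 w0)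
      (fun θ => Φ θ ε) (fun θ θ' a b c => (hΦ θ θ' ε ε a b c).1) hP
  have dj : Disjoint ((fun θ => Φ θ 0) '' {θ | Ad (mono Y y0 w0) θ})
      ((fun θ => Φ θ 1) '' {θ | Ad (mono Y y0 w0) θ}) := by
    rw [Set.disjoint_left]
    rintro _ ⟨θ, a, rfl⟩ ⟨θ', b, c⟩
    exact one_ne_zero (hΦ θ' θ 1 0 b a c).2
  have e1 := Set.ncard_union_eq dj
  have e2 := Set.ncard_le_card ((fun θ => Φ θ 0) '' {θ | Ad (mono Y y0 w0) θ} ∪
    (fun θ => Φ θ 1) '' {θ | Ad (mono Y y0 w0) θ})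
  rw [Nat.card_fun, Nat.card_zmod, Nat.card_fin] at e2
  have e3 := key 0
  have e4 := key 1
  exact (Nat.pow_le_pow_iff_right (by omega : 1 < 2)).1 (by rw [pow_succ]; omega)

theorem fibA : ∃ ρ C : ℕ, ∀ (Γ : Subgroup W) [Γ.FiniteIndex],
    (∀ w, ∀ γ ∈ Γ, len (w * γ * w⁻¹) ≤ ρ → γ = 1) → ∀ ψ : Γ →* Multiplicative ℤ,
    Function.Surjective ψ → ∀ n : ℕ, 0 < n → Nonempty (ψ.ker ≃* Surf n) →
    (∀ γ : Γ, (C * Group.rank Γ : ℤ) * |Multiplicative.toAdd (ψ γ)| ≤ len γ) →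
    Group.rank Γ = 2 * n + 1 := by
  classical
  obtain ⟨ρ, C, h⟩ := low
  refine ⟨ρ, C, fun Γ _ hth ψ hψ n hn ⟨e⟩ hl => ?_⟩
  obtain ⟨τ, hτ⟩ := hψ (Multiplicative.ofAdd 1)
  let π0 : FreeGroup (Fin n × Bool) →* Γ :=
    ψ.ker.subtype.comp (e.symm.toMonoidHom.comp (PresentedGroup.mk _))
  have r0 : ∀ γ : Γ, γ ∈ π0.range ↔ ψ γ = 1 := fun γ => by
    constructor
    · rintro ⟨u, rfl⟩
      exact (e.symm (PresentedGroup.mk _ u)).2
    · intro k
      obtain ⟨u, hu⟩ := PresentedGroup.mk_surjective _ (e ⟨γ, k⟩)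
      refine ⟨u, ?_⟩
      show ((e.symm (PresentedGroup.mk _ u) : ψ.ker) : Γ) = γ
      rw [hu, e.symm_apply_apply]
  have up : Group.rank Γ ≤ 2 * n + 1 := by
    let T : Finset Γ := insert τ (Finset.univ.image fun a => π0 (FreeGroup.of a))
    refine (Group.rank_le (S := T) ?_).trans ((Finset.card_insert_le _ _).trans ?_)
    · rw [eq_top_iff]
      intro γ _
      have k1 : τ ∈ Subgroup.closure (T : Set Γ) :=
        Subgroup.subset_closure (Finset.mem_coe.2 (Finset.mem_insert_self _ _))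
      have k2 : π0.range ≤ Subgroup.closure (T : Set Γ) := by
        rw [MonoidHom.range_eq_map, ← FreeGroup.closure_range_of, MonoidHom.map_closure]
        refine Subgroup.closure_mono ?_
        rintro _ ⟨_, ⟨a, rfl⟩, rfl⟩
        exact Finset.mem_coe.2 (Finset.mem_insert_of_mem
          (Finset.mem_image_of_mem _ (Finset.mem_univ a)))
      have k3 : γ * (τ ^ (Multiplicative.toAdd (ψ γ)))⁻¹ ∈ π0.range := by
        rw [r0, map_mul, map_inv, map_zpow, hτ, ← ofAdd_zsmul, smul_eq_mul, mul_one,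
          ofAdd_toAdd, mul_inv_cancel]
      have := mul_mem (k2 k3) (zpow_mem k1 (Multiplicative.toAdd (ψ γ)))
      rwa [inv_mul_cancel_right] at this
    · refine Nat.add_le_add_right (Finset.card_image_le.trans ?_) 1
      simp [mul_comm]
  obtain ⟨T, t1, t2⟩ := Group.rank_spec Γ
  have t3 : (T.image Γ.subtype).card ≤ Group.rank Γ := t1 ▸ Finset.card_image_le
  have hv : ∀ γ : Γ, (fun w : W => if k : w ∈ Γ then Multiplicative.toAdd (ψ ⟨w, k⟩) else 0) γ =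
      Multiplicative.toAdd (ψ γ) := fun γ => dif_pos γ.2
  generalize (fun w : W => if k : w ∈ Γ then Multiplicative.toAdd (ψ ⟨w, k⟩) else 0) = φ at hv
  refine le_antisymm up (le_trans (h Γ hth φ τ (fun a ha b hb => ?_) τ.2 (by rw [hv, hτ]; rfl)
    n hn (Γ.subtype.comp π0) ?_ (fun w => ?_) _ (CW.FinA.rank_pos Γ) (fun γ hγ => ?_)
    (T.image Γ.subtype) ?_ t3) t3)
  · have := hv (⟨a, ha⟩ * ⟨b, hb⟩)
    rw [map_mul, toAdd_mul, ← hv, ← hv] at this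
    exact this
  · ext u
    rw [MonoidHom.mem_ker, ← PresentedGroup.mk_eq_one_iff]
    show (((e.symm (PresentedGroup.mk _ u) : ψ.ker) : Γ) : W) = 1 ↔ _
    rw [OneMemClass.coe_eq_one, OneMemClass.coe_eq_one, MulEquiv.map_eq_one_iff]
  · constructor
    · rintro ⟨u, rfl⟩
      refine ⟨(π0 u).2, ?_⟩
      have := hv (π0 u)
      rw [(r0 _).1 ⟨u, rfl⟩] at this
      exact this
    · rintro ⟨k1, k2⟩
      have := hv ⟨w, k1⟩
      rw [show φ (⟨w, k1⟩ : Γ) = 0 from k2] at this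
      obtain ⟨u, hu⟩ := (r0 ⟨w, k1⟩).2 (toAdd_eq_zero.1 this.symm)
      exact ⟨u, congrArg Subtype.val hu⟩
  · have := hl ⟨γ, hγ⟩
    rw [← hv] at this
    push_cast
    exact this
  · rw [Finset.coe_image, ← MonoidHom.map_closure, t2, ← MonoidHom.range_eq_map,
      Subgroup.range_subtype]

end Pool.Agent.MP_df844f_gt.FB

end
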