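import Pool.Agent.MP_df844f_gt.fb.Main
import Pool.Agent.MP_df844f_gt.fb.Core2
import Pool.Agent.MP_df844f_gt.fb.Def2

/-! The rank of a finite index subgroup acting on the line with surface group stabilisers and long
translation length. -/

set_option autoImplicit false
set_option linter.unusedSectionVars false

noncomputable section

namespace Pool.Agent.MP_df844f_gt.FB

open Pool.Agent.MP_df844f_gt.RA PS

theorem side {G : Type} [Group G] (Γ Γ0 : Subgroup G)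
    (hx : ∀ a ∈ Γ, ∀ b ∈ Γ, a ∉ Γ0 → b ∉ Γ0 → a⁻¹ * b ∈ Γ0) :
    ∃ β : G → Bool, ∀ w w', w⁻¹ * w' ∈ Γ → β w = β w' → w⁻¹ * w' ∈ Γ0 := by
  classical
  refine ⟨fun w => decide (((w : G ⧸ Γ).out)⁻¹ * w ∈ Γ0), fun w w' h e => ?_⟩
  have k : (w : G ⧸ Γ) = w' := QuotientGroup.eq.2 h
  have k1 : ((w : G ⧸ Γ).out)⁻¹ * w ∈ Γ := QuotientGroup.eq.1 (QuotientGroup.out_eq' _)
  have k2 : ((w : G ⧸ Γ).out)⁻¹ * w' ∈ Γ := QuotientGroup.eq.1 ((QuotientGroup.out_eq' _).trans k)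
  simp only [← k, decide_eq_decide] at e
  rw [show w⁻¹ * w' = (((w : G ⧸ Γ).out)⁻¹ * w)⁻¹ * (((w : G ⧸ Γ).out)⁻¹ * w') by group]
  by_cases c : ((w : G ⧸ Γ).out)⁻¹ * w ∈ Γ0
  · exact mul_mem (inv_mem c) (e.1 c)
  · exact hx _ k1 _ k2 c fun q => c (e.2 q)

theorem fi2 {G : Type} [Group G] (Γ Γ0 : Subgroup G) [Γ.FiniteIndex]
    (hx : ∀ a ∈ Γ, ∀ b ∈ Γ, a ∉ Γ0 → b ∉ Γ0 → a⁻¹ * b ∈ Γ0) : Γ0.FiniteIndex := by
  obtain ⟨β, h⟩ := side Γ Γ0 hx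
  have : Finite (G ⧸ Γ0) := Finite.of_injective (fun c => (((c.out : G) : G ⧸ Γ), β c.out))
    fun a b e => by
      rw [← a.out_eq', ← b.out_eq', QuotientGroup.eq]
      exact h _ _ (QuotientGroup.eq.1 (congrArg Prod.fst e)) (congrArg Prod.snd e)
  exact Subgroup.finiteIndex_of_finite_quotient

theorem IsSurf.pres {k : ℕ} {A : Type} [Group A] (h : IsSurf k A) :
    ∃ (α : Type) (_ : Finite α) (ω : FreeGroup α), Nat.card α = k ∧
      (∀ f : FreeGroup α →* Multiplicative (ZMod 2), f ω = 1) ∧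
      Nonempty (A ≃* PresentedGroup ({ω} : Set (FreeGroup α))) := by
  rcases h with ⟨g, rfl, h⟩ | h
  · exact ⟨_, inferInstance, surfRel g, by simp [mul_comm], fun f => surfRel_map g f, h⟩
  · refine ⟨_, inferInstance, nsurfRel k, by simp, fun f => ?_, h⟩
    unfold nsurfRel
    rw [map_list_prod]
    refine List.prod_eq_one fun x hx => ?_
    obtain ⟨y, hy, rfl⟩ := List.mem_map.1 hx
    obtain ⟨i, rfl⟩ := (List.mem_ofFn' _ _).1 hy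
    simp only [map_mul]
    generalize f (FreeGroup.of i) = z
    revert z
    decide

variable [Dat]

theorem low2 : ∃ ρ C : ℕ, ∀ (Γ : Subgroup W) [Γ.FiniteIndex],
    (∀ w, ∀ γ ∈ Γ, len (w * γ * w⁻¹) ≤ ρ → γ = 1) → ∀ Γ0 : Subgroup W, Γ0 ≤ Γ →
    (∀ a ∈ Γ, ∀ b ∈ Γ, a ∉ Γ0 → b ∉ Γ0 → a⁻¹ * b ∈ Γ0) →
    ∀ (ψ : W → ℤ) (τ : W), Adz Γ0 ψ → τ ∈ Γ0 → ψ τ = 1 → ∀ N : Subgroup W,
    (∀ w, w ∈ N ↔ w ∈ Γ0 ∧ ψ w = 0) → ∀ n : ℕ, 2 ≤ n →
    (∀ P : Subgroup W, P ≤ Γ → (∀ p ∈ P, p ∈ Γ0 → ψ p = 0) →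
      ∃ (α : Type) (_ : Finite α) (ω : FreeGroup α) (π : FreeGroup α →* W) (χ : W → F2),
        Nat.card α = n ∧ (∀ f : FreeGroup α →* Multiplicative (ZMod 2), f ω = 1) ∧
        π.ker = Subgroup.normalClosure {ω} ∧ (∀ p ∈ P, p ∈ π.range) ∧
        (N.comap π).FiniteIndex ∧ Ad Γ χ ∧ χ τ = 1 ∧ ∀ p ∈ P, χ p = 0) →
    ∀ m : ℕ, 0 < m → (∀ γ ∈ Γ0, ((C * m : ℕ) : ℤ) * |ψ γ| ≤ len γ) → ∀ T : Finset W,
    Subgroup.closure (T : Set W) = Γ → T.card ≤ m → n + 1 ≤ T.card := by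
  obtain ⟨A, ρ0, hm⟩ := CW.seqFB
  refine ⟨ρ0, 5 * (6 * A + 1), ?_⟩
  intro Γ _ hth Γ0 hle hx ψ τ ha hτ h1 N hr n hn hP0 m hm0 hl T hT hc
  have := fi2 Γ Γ0 hx
  obtain ⟨β, hβ⟩ := side Γ Γ0 hx
  obtain ⟨ρ, hρ⟩ := exists_ht ha hl
  obtain ⟨q, hq⟩ : ∃ q, q = (6 * A + 1) * m := ⟨_, rfl⟩
  rw [mul_assoc, ← hq] at hρ
  have hK : (A * (T.card + 1) + A) * 2 < q := by
    have e1 : A * (T.card + 1) ≤ A * (2 * m) := Nat.mul_le_mul_left _ (by omega)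
    have e2 : A ≤ A * m := Nat.le_mul_of_pos_right _ hm0
    have e3 : q = (A * (2 * m) + A * m) * 2 + m := by rw [hq]; ring
    omega
  have fg : N.FG := by
    obtain ⟨α, _, ω, π, χ, -, -, -, a1, a2, -⟩ := hP0 N (fun w k => hle ((hr w).1 k).1)
      fun w k _ => ((hr w).1 k).2
    have e : N = (π.comp (N.comap π).subtype).range := by
      rw [MonoidHom.range_comp, Subgroup.range_subtype, Subgroup.map_comap_eq_self a1]
    rw [e]
    exact (Group.fg_iff_subgroup_fg _).1 inferInstance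
  choose I η hS using fun i => hρ.slab WAll.h1A (by omega) ha hτ h1 N hr fg i
  obtain ⟨o, ho⟩ : ∃ o, o = ((1 : W) : W ⧸ Γ) := ⟨_, rfl⟩
  have hsm : ∀ w : W, w • o = (w : W ⧸ Γ) := fun w => by
    rw [ho, MulAction.Quotient.smul_coe, smul_eq_mul, mul_one]
  have heq : ∀ w w' : W, w • o = w' • o ↔ w⁻¹ * w' ∈ Γ := fun w w' => by
    rw [hsm, hsm, QuotientGroup.eq]
  have hst : ∀ γ : W, γ • o = o ↔ γ ∈ Γ := fun γ => by
    have := heq γ 1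
    rwa [one_smul, mul_one, inv_mem_iff] at this
  have hTr : Trans o := fun b => by
    obtain ⟨w, rfl⟩ := QuotientGroup.mk_surjective b
    exact ⟨w, hsm w⟩
  obtain ⟨O, hO⟩ : ∃ O : ℕ → W ⧸ Γ → Prop, ∀ j b, O j b ↔
      ∃ w, w • o = b ∧ |ρ w - 5 * (j : ℤ)| ≤ 2 := ⟨_, fun _ _ => Iff.rfl⟩
  have hO1 : ∀ X : Set (W ⧸ Γ), X.ncard * 2 < q → ∃ j < q, ∀ b ∈ X, ¬ O j b := by
    intro X hX
    obtain ⟨j, hj, e⟩ := pig q (fun j (c : (W ⧸ Γ) × Bool) =>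
      ∃ w, w • o = c.1 ∧ β w = c.2 ∧ |ρ w - 5 * (j : ℤ)| ≤ 2) (by
        rintro b i hi j hj ⟨w, a1, a0, a2⟩ ⟨w', a3, a5, a4⟩
        have e := hρ.eqv w _ (hβ w w' ((heq w w').1 (a1.trans a3.symm)) (a0.trans a5.symm))
        rw [mul_inv_cancel_left] at e
        rw [abs_le] at a2 a4
        rcases lt_trichotomy (ψ (w⁻¹ * w')) 0 with k | k | k
        · have := Int.mul_le_mul_of_nonneg_left (show ψ (w⁻¹ * w') ≤ -1 by omega)
            (show (0 : ℤ) ≤ ((5 * q : ℕ) : ℤ) by omega)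
          omega
        · rw [k] at e
          omega
        · have := Int.mul_le_mul_of_nonneg_left (show 1 ≤ ψ (w⁻¹ * w') by omega)
            (show (0 : ℤ) ≤ ((5 * q : ℕ) : ℤ) by omega)
          omega) (X ×ˢ Set.univ) (by rw [Set.ncard_prod, Set.ncard_univ]; simpa using hX)
    refine ⟨j, hj, fun b hb k => ?_⟩
    obtain ⟨w, a1, a2⟩ := (hO _ _).1 k
    exact e (b, β w) ⟨hb, trivial⟩ ⟨w, a1, rfl, a2⟩
  have hO2 : ∀ j : ℕ, ∀ w ∈ I (5 * (j : ℤ)), O j (w • o) := fun j w hw =>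
    (hO _ _).2 ⟨w, rfl, by rw [(hS _).lev w hw]; simp⟩
  obtain ⟨Y, x0, μ, U, hI, har, ⟨j, hj, g1, w0, g2, y0, g3⟩, ⟨X, u1, u2⟩, hU⟩ := hm (W ⧸ Γ) o hTr
    (fun w w' e hd => by
      have := hth w _ ((heq w w').1 e) (by
        rw [d_comm] at hd
        rwa [show w * (w⁻¹ * w') * w⁻¹ = w' * w⁻¹ by group])
      exact inv_mul_eq_one.1 this)
    T (by rw [hT, ho, MulAction.stabilizer_quotient])
    (fun Y => ∃ j < q, (∀ b ∈ Y.f '' {x | ∃ s, Y.Free x s}, ¬ O j b) ∧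
      ∃ w ∈ I (5 * (j : ℤ)), w • o ∈ Set.range Y.f)
    (fun U => ∃ X : Set (W ⧸ Γ), X.ncard ≤ A * (T.card + 1) ∧
      ∀ j < q, (∃ w ∈ I (5 * (j : ℤ)), w • o ∈ U) → ∃ b ∈ X, O j b)
    ⟨∅, by simp, fun j _ ⟨_, _, k⟩ => k.elim⟩
    (fun Y h k => ⟨_, (bad_le Y).trans h, fun j hj e => by
      by_contra k'
      exact k ⟨j, hj, fun b hb hb' => k' ⟨b, hb, hb'⟩, e⟩⟩)
    (fun Y h k => by
      have e1 := Set.ncard_add_ncard_compl (Set.range Y.f)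
      have e2 := Set.ncard_union_le (Y.f '' {x | ∃ s, Y.Free x s}) (Set.range Y.f)ᶜ
      have e3 := bad_le Y
      unfold CW.sp at k
      obtain ⟨j, hj, e⟩ := hO1 (Y.f '' {x | ∃ s, Y.Free x s} ∪ (Set.range Y.f)ᶜ) (by omega)
      obtain ⟨w, hw⟩ := (hS (5 * (j : ℤ))).ne
      exact ⟨j, hj, fun b hb => e b (Or.inl hb), w, hw,
        not_not.1 fun k' => e _ (Or.inr k') (hO2 j w hw)⟩)
  obtain ⟨i, hi, e⟩ := hO1 (X ∪ (Set.range Y.f \ U))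
    (by have := Set.ncard_union_le X (Set.range Y.f \ U); omega)
  have hno : ∀ w, ∀ γ ∈ Γ0, w * γ ∈ I (5 * (i : ℤ)) → ∀ x, w • o ≠ Y.f x := by
    intro w γ hγ hw x k
    have k1 : (w * γ) • o = Y.f x := by rw [mul_smul, (hst γ).2 (hle hγ), k]
    by_cases k2 : (w * γ) • o ∈ U
    · obtain ⟨b, b1, b2⟩ := u2 i hi ⟨_, hw, k2⟩
      exact e b (Or.inl b1) b2
    · exact e _ (Or.inr ⟨⟨x, k1.symm⟩, k2⟩) (hO2 i _ hw)
  have hη : ∀ s x y w, Y.e s x y → w • o = Y.f x →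
      η (5 * (i : ℤ)) (g s * w) = η (5 * (i : ℤ)) w := by
    intro s x y w e k
    rcases lt_trichotomy (η (5 * (i : ℤ)) (g s * w)) (η (5 * (i : ℤ)) w) with c | c | c
    · obtain ⟨γ, c1, c2⟩ := (hS _).jump s w c
      exact (hno w γ c1 c2 x k).elim
    · exact c
    · obtain ⟨γ, c1, c2⟩ := (hS _).jump s (g s * w) (by rwa [g_mul_g_mul])
      exact (hno _ γ c1 c2 y (by rw [mul_smul, k, Y.e_f e])).elim
  have hRc : ∀ b, Rc Y (y0, w0) b → η (5 * (i : ℤ)) b.2 = η (5 * (i : ℤ)) w0 := by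
    intro b hb
    induction hb with
    | refl => rfl
    | @tail a b k c ih =>
      obtain ⟨s, c1, c2⟩ := c
      rw [c2, hη s _ _ _ c1 (Rc.valid k g3.symm), ih]
  obtain ⟨α, _, ω, π, χ, hα, hω, hk, hP, hfN, hχ, χ1, χ0⟩ := hP0 (mono Y y0 w0)
    (fun p hp => by
      have k1 : (w0 * p) • o = Y.f y0 := Rc.valid hp g3.symm
      have := (heq w0 (w0 * p)).1 (g3.symm.trans k1.symm)
      rwa [inv_mul_cancel_left] at this)
    (fun p hp k2 => by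
      have k3 : η (5 * (i : ℤ)) (w0 * p) = η (5 * (i : ℤ)) w0 := hRc _ hp
      rw [(hS _).eqv w0 p k2] at k3
      omega)
  obtain ⟨Φ, hΦ⟩ := core2 (χ := χ) (η := fun w => χ (((w : W ⧸ Γ).out)⁻¹ * w)) hI hTr
    ((hst τ).2 (hle hτ)) χ1 (fun w γ k => by
      have k' := (hst γ).1 k
      rw [QuotientGroup.mk_mul_of_mem w k', ← mul_assoc]
      exact hχ _ (QuotientGroup.eq.1 (QuotientGroup.out_eq' _)) _ k') y0 w0 g3.symm χ0
  have hz : ∀ u, ∃ y, π u ∈ N → Rc Y (y0, w0) (y, w0 * π u) := fun u => by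
    by_cases k : π u ∈ N
    · obtain ⟨k1, k2⟩ := (hr (π u)).1 k
      obtain ⟨y, hy⟩ := lift (fun y w hw k s c => g1 _ ⟨y, ⟨s, c⟩, rfl⟩ ((hO _ _).2 ⟨w, k, hw⟩))
        ((hS _).con w0 g2 _ ((hS _).inv w0 g2 _ k1 k2)) g3.symm
      exact ⟨y, fun _ => hy⟩
    · exact ⟨y0, fun c => absurd c k⟩
  choose z hz using hz
  have := Y.finO
  have hfin : Finite (FreeGroup α ⧸ (mono Y y0 w0).comap π) :=
    Finite.of_injective (fun b => (((b.out : FreeGroup α) : FreeGroup α ⧸ N.comap π),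
      z ((((b.out : FreeGroup α) : FreeGroup α ⧸ N.comap π).out)⁻¹ * b.out))) fun a b c => by
      obtain ⟨c1, c2⟩ := Prod.mk.inj c
      rw [← c1] at c2
      have k1 := hz _ (QuotientGroup.eq.1 (QuotientGroup.out_eq'
        ((a.out : FreeGroup α) : FreeGroup α ⧸ N.comap π)))
      have k2 := hz _ (QuotientGroup.eq.1 ((QuotientGroup.out_eq'
        ((a.out : FreeGroup α) : FreeGroup α ⧸ N.comap π)).trans c1))
      rw [← c2] at k2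
      have := mem_mono k1 k2
      rw [← a.out_eq', ← b.out_eq', QuotientGroup.eq, Subgroup.mem_comap]
      convert this using 1
      simp only [map_mul, map_inv]
      group
  have hfi : ((mono Y y0 w0).comap π).FiniteIndex := Subgroup.finiteIndex_of_finite_quotient
  have key : ∀ ε, 2 ^ n ≤ ((fun θ => Φ θ ε) '' {θ | Ad (mono Y y0 w0) θ}).ncard := fun ε =>
    hα ▸ surf (by omega) ω hω π hk (mono Y y0 w0)
      (fun θ => Φ θ ε) (fun θ θ' a b c => (hΦ θ θ' ε ε a b c).1) hP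
  have dj : Disjoint ((fun θ => Φ θ 0) '' {θ | Ad (mono Y y0 w0) θ})
      ((fun θ => Φ θ 1) '' {θ | Ad (mono Y y0 w0) θ}) := by
    rw [Set.disjoint_left]
    rintro _ ⟨θ, a, rfl⟩ ⟨θ', b, c⟩
    exact one_ne_zero (hΦ θ' θ 1 0 b a c).2
  have e1 := Set.ncard_union_eq dj
  have e2 := Set.ncard_le_card ((fun θ => Φ θ 0) '' {θ | Ad (mono Y y0 w0) θ} ∪
    (fun θ => Φ θ 1) '' {θ | Ad (mono Y y0 w0) θ})
  rw [Nat.card_fun, Nat.card_zmod, Nat.card_fin] at e2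
  have e3 := key 0
  have e4 := key 1
  exact (Nat.pow_le_pow_iff_right (by omega : 1 < 2)).1 (by rw [pow_succ]; omega)

end Pool.Agent.MP_df844f_gt.FB

end
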